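import Mathlib

/-!
# Zeros on the positive axis of bounded functions in the right half plane
-/

set_option autoImplicit false

namespace Pool.Agent.V1175

open Complex Set Filter Topology Bornology

/-- Division by one Blaschke factor. -/
theorem blaschke_step (h : ℂ → ℂ) (U : Set ℂ) (hU : IsOpen U) (hsub : {z : ℂ | 0 ≤ z.re} ⊆ U)
    (hd : DifferentiableOn ℂ h U) (M : ℝ) (hM : ∀ z : ℂ, 0 ≤ z.re → ‖h z‖ ≤ M) (s : ℝ)
    (hs : 0 < s) (h0 : h s = 0) :
    ∃ g : ℂ → ℂ, DifferentiableOn ℂ g U ∧ (∀ z : ℂ, 0 ≤ z.re → ‖g z‖ ≤ M) ∧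
      ∀ z, h z * (z + s) = g z * (z - s) := by
  have hM0 : 0 ≤ M := (norm_nonneg _).trans (hM 0 le_rfl)
  set g : ℂ → ℂ := fun z => dslope h s z * (z + s) with hg
  have hsU : U ∈ 𝓝 (s : ℂ) := hU.mem_nhds (hsub (by simpa using hs.le))
  have hgd : DifferentiableOn ℂ g U := by
    apply DifferentiableOn.mul
    · exact (differentiableOn_dslope hsU).mpr hd
    · fun_prop
  have hid : ∀ z, h z * (z + s) = g z * (z - s) := by
    intro z
    have h1 := sub_smul_dslope h (s : ℂ) z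
    rw [h0, sub_zero, smul_eq_mul] at h1
    simp only [hg]
    rw [← h1]; ring
  have hfar : ∀ z : ℂ, 0 ≤ z.re → 3 * s ≤ ‖z‖ → ‖g z‖ ≤ 2 * M := by
    intro z hz hz3
    have h1 := congrArg norm (hid z)
    rw [norm_mul, norm_mul] at h1
    have h2 : ‖z‖ - s ≤ ‖z - s‖ := by
      have := norm_sub_norm_le z (s : ℂ)
      rwa [Complex.norm_real, Real.norm_of_nonneg hs.le] at this
    have h3 : ‖z + s‖ ≤ ‖z‖ + s := by
      have := norm_add_le z (s : ℂ)
      rwa [Complex.norm_real, Real.norm_of_nonneg hs.le] at this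
    have h4 := hM z hz
    have h5 : ‖g z‖ * (‖z‖ - s) ≤ M * (‖z‖ + s) := by
      calc ‖g z‖ * (‖z‖ - s) ≤ ‖g z‖ * ‖z - s‖ :=
            mul_le_mul_of_nonneg_left h2 (norm_nonneg _)
        _ = ‖h z‖ * ‖z + s‖ := h1.symm
        _ ≤ M * (‖z‖ + s) := mul_le_mul h4 h3 (norm_nonneg _) hM0
    have h6 : M * (‖z‖ + s) ≤ 2 * M * (‖z‖ - s) := by nlinarith
    have h7 : 0 < ‖z‖ - s := by linarith
    exact le_of_mul_le_mul_right (h5.trans h6) h7
  refine ⟨g, hgd, ?_, hid⟩
  intro z hz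
  refine PhragmenLindelof.right_half_plane_of_bounded_on_real (f := g) ?_ ?_ ?_ ?_ hz
  · apply DifferentiableOn.diffContOnCl
    refine hgd.mono ?_
    rw [Complex.closure_setOfPred_lt_re]
    exact hsub
  · refine ⟨1, by norm_num, 0, ?_⟩
    simp only [zero_mul, Real.exp_zero]
    refine Asymptotics.IsBigO.of_bound (2 * M) ?_
    rw [eventually_inf_principal]
    have h1 : ∀ᶠ z : ℂ in cobounded ℂ, 3 * s ≤ ‖z‖ := by
      have := tendsto_norm_cobounded_atTop (E := ℂ)
      exact this.eventually_ge_atTop _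
    filter_upwards [h1] with z hz1 hz2
    rw [norm_one, mul_one]
    exact hfar z (le_of_lt hz2) hz1
  · refine isBoundedUnder_of_eventually_le (a := 2 * M) ?_
    filter_upwards [eventually_ge_atTop (3 * s)] with x hx
    have hx0 : 0 ≤ x := by linarith
    apply hfar
    · simpa using hx0
    · rw [Complex.norm_real, Real.norm_of_nonneg hx0]; exact hx
  · intro y
    have h1 := congrArg norm (hid (y * I))
    rw [norm_mul, norm_mul] at h1
    have h2 : ‖(y : ℂ) * I + s‖ = ‖(y : ℂ) * I - s‖ := by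
      have e1 : (y : ℂ) * I + s = ⟨s, y⟩ := by apply Complex.ext <;> simp
      have e2 : (y : ℂ) * I - s = ⟨-s, y⟩ := by apply Complex.ext <;> simp
      rw [e1, e2, Complex.norm_def, Complex.norm_def]
      simp [Complex.normSq_apply]
    have h3 : 0 < ‖(y : ℂ) * I - s‖ := by
      rw [norm_pos_iff]
      intro h
      have := congrArg Complex.re h
      simp at this
      linarith
    rw [h2] at h1
    have h4 : ‖h (y * I)‖ = ‖g (y * I)‖ := mul_right_cancel₀ h3.ne' h1
    rw [← h4]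
    exact hM _ (by simp)

/-- The estimate of Blaschke. -/
theorem blaschke_prod (S : Finset ℝ) : ∀ (h : ℂ → ℂ) (U : Set ℂ), IsOpen U →
    {z : ℂ | 0 ≤ z.re} ⊆ U → DifferentiableOn ℂ h U → ∀ M : ℝ,
    (∀ z : ℂ, 0 ≤ z.re → ‖h z‖ ≤ M) → (∀ s ∈ S, 0 < s ∧ h s = 0) → ∀ c : ℝ, 0 < c →
    ‖h c‖ * ∏ s ∈ S, (c + s) ≤ M * ∏ s ∈ S, |c - s| := by
  classical
  induction S using Finset.induction_on with
  | empty =>
    intro h U _ _ _ M hM _ c hc
    simpa using hM c (by simpa using hc.le)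
  | insert s S hsS ih =>
    intro h U hU hsub hd M hM hS c hc
    obtain ⟨hs, h0⟩ := hS s (Finset.mem_insert_self _ _)
    obtain ⟨g, hgd, hgM, hid⟩ := blaschke_step h U hU hsub hd M hM s hs h0
    have h1 := ih g U hU hsub hgd M hgM (by
      intro t ht
      obtain ⟨ht0, htz⟩ := hS t (Finset.mem_insert_of_mem ht)
      refine ⟨ht0, ?_⟩
      have h2 := hid t
      rw [htz, zero_mul] at h2
      have h3 : (t : ℂ) - s ≠ 0 := by
        rw [sub_ne_zero]
        intro h
        have : t = s := by exact_mod_cast h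
        rw [this] at ht
        exact hsS ht
      exact (mul_eq_zero.mp h2.symm).resolve_right h3) c hc
    rw [Finset.prod_insert hsS, Finset.prod_insert hsS]
    have h4 := congrArg norm (hid c)
    rw [norm_mul, norm_mul] at h4
    have h5 : ‖(c : ℂ) + s‖ = c + s := by
      rw [← Complex.ofReal_add, Complex.norm_real, Real.norm_of_nonneg (by linarith)]
    have h6 : ‖(c : ℂ) - s‖ = |c - s| := by
      rw [← Complex.ofReal_sub, Complex.norm_real, Real.norm_eq_abs]
    rw [h5, h6] at h4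
    calc ‖h c‖ * ((c + s) * ∏ x ∈ S, (c + x)) = (‖h c‖ * (c + s)) * ∏ x ∈ S, (c + x) := by ring
      _ = |c - s| * (‖g c‖ * ∏ x ∈ S, (c + x)) := by rw [h4]; ring
      _ ≤ |c - s| * (M * ∏ x ∈ S, |c - x|) := mul_le_mul_of_nonneg_left h1 (abs_nonneg _)
      _ = _ := by ring

/-- The condition of Blaschke for zeros to the right of a point where `h` does not vanish. -/
theorem blaschke_sum (h : ℂ → ℂ) (U : Set ℂ) (hU : IsOpen U)
    (hsub : {z : ℂ | 0 ≤ z.re} ⊆ U) (hd : DifferentiableOn ℂ h U) (M : ℝ)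
    (hM : ∀ z : ℂ, 0 ≤ z.re → ‖h z‖ ≤ M) (c : ℝ) (hc : 0 < c) (hne : h c ≠ 0) :
    ∃ C : ℝ, ∀ S : Finset ℝ, (∀ s ∈ S, c ≤ s ∧ h s = 0) → ∑ s ∈ S, 1 / (c + s) ≤ C := by
  have hpos : 0 < ‖h c‖ := norm_pos_iff.mpr hne
  have hMpos : 0 < M := hpos.trans_le (hM c (by simpa using hc.le))
  refine ⟨Real.log (M / ‖h c‖) / (2 * c), fun S hS => ?_⟩
  have h1 := blaschke_prod S h U hU hsub hd M hM (fun s hs => ⟨hc.trans_le (hS s hs).1,
    (hS s hs).2⟩) c hc
  have h2 : ∏ s ∈ S, |c - s| ≤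
      Real.exp (-(2 * c * ∑ s ∈ S, 1 / (c + s))) * ∏ s ∈ S, (c + s) := by
    rw [Finset.mul_sum, ← Finset.sum_neg_distrib, Real.exp_sum, ← Finset.prod_mul_distrib]
    apply Finset.prod_le_prod
    · intro s _; exact abs_nonneg _
    · intro s hs
      have hcs := (hS s hs).1
      have hp : 0 < c + s := by linarith
      rw [abs_of_nonpos (by linarith)]
      have h3 := Real.add_one_le_exp (-(2 * c * (1 / (c + s))))
      have h4 : -(c - s) = (-(2 * c * (1 / (c + s))) + 1) * (c + s) := by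
        field_simp; ring
      rw [h4]
      exact mul_le_mul_of_nonneg_right h3 hp.le
  have hP : 0 < ∏ s ∈ S, (c + s) := Finset.prod_pos fun s hs => by
    have := (hS s hs).1; linarith
  set V := ∑ s ∈ S, 1 / (c + s) with hV
  have h5 : ‖h c‖ ≤ M * Real.exp (-(2 * c * V)) := by
    have h6 := h1.trans (mul_le_mul_of_nonneg_left h2 hMpos.le)
    rw [← mul_assoc] at h6
    exact le_of_mul_le_mul_right h6 hP
  rw [le_div_iff₀ (by positivity)]
  have h7 : Real.exp (2 * c * V) ≤ M / ‖h c‖ := by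
    rw [le_div_iff₀ hpos]
    calc Real.exp (2 * c * V) * ‖h c‖ ≤ Real.exp (2 * c * V) * (M * Real.exp (-(2 * c * V))) :=
          mul_le_mul_of_nonneg_left h5 (Real.exp_pos _).le
      _ = M := by
          rw [Real.exp_neg]
          field_simp
  have h8 := Real.log_le_log (Real.exp_pos _) h7
  rw [Real.log_exp] at h8
  linarith

end Pool.Agent.V1175
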