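import Mathlib

set_option autoImplicit false
open scoped ComplexOrder

namespace Pool.Agent.V1175.ZetaInv

open Finset Matrix

section Chess

variable {n : Type*} [Fintype n] [DecidableEq n]

/-- product of a word -/
def P (B : Bool → Matrix n n ℂ) (w : List Bool) : Matrix n n ℂ := (w.map B).prod

theorem P_append (B : Bool → Matrix n n ℂ) (u v : List Bool) : P B (u ++ v) = P B u * P B v := by
  simp [P]

theorem P_reverse (B : Bool → Matrix n n ℂ) (hB : ∀ b, (B b)ᴴ = B b) (w : List Bool) :
    P B w.reverse = (P B w)ᴴ := by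
  induction w with
  | nil => simp [P]
  | cons a w ih =>
    rw [List.reverse_cons, P_append, ih]
    have : P B (a :: w) = B a * P B w := by simp [P]
    rw [this, Matrix.conjTranspose_mul, hB]
    simp [P]

theorem P_replicate (B : Bool → Matrix n n ℂ) (r : ℕ) (b : Bool) :
    P B (List.replicate r b) = (B b) ^ r := by
  simp [P]

theorem trace_self (X : Matrix n n ℂ) : (X * Xᴴ).trace.re = ∑ i, ∑ j, ‖X i j‖ ^ 2 := by
  simp only [Matrix.trace, Matrix.diag, Matrix.mul_apply, Matrix.conjTranspose_apply, Complex.re_sum]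
  refine Finset.sum_congr rfl fun i _ => Finset.sum_congr rfl fun j _ => ?_
  rw [Complex.star_def, Complex.mul_conj, Complex.ofReal_re, Complex.normSq_eq_norm_sq]

theorem trace_self' (X : Matrix n n ℂ) : (Xᴴ * X).trace.re = ∑ i, ∑ j, ‖X i j‖ ^ 2 := by
  rw [Matrix.trace_mul_comm, trace_self]

theorem cs (X Y : Matrix n n ℂ) :
    ‖(X * Y).trace‖ ^ 2 ≤ (X * Xᴴ).trace.re * (Yᴴ * Y).trace.re := by
  rw [trace_self, trace_self']
  have h1 : ‖(X * Y).trace‖ ≤ ∑ q : n × n, ‖X q.1 q.2‖ * ‖Y q.2 q.1‖ := by
    rw [Fintype.sum_prod_type]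
    simp only [Matrix.trace, Matrix.diag, Matrix.mul_apply]
    refine (norm_sum_le _ _).trans (Finset.sum_le_sum fun i _ => ?_)
    refine (norm_sum_le _ _).trans (Finset.sum_le_sum fun j _ => ?_)
    rw [norm_mul]
  have h2 := Finset.sum_mul_sq_le_sq_mul_sq (univ : Finset (n × n)) (fun q => ‖X q.1 q.2‖)
    (fun q => ‖Y q.2 q.1‖)
  have h3 : ∑ q : n × n, ‖X q.1 q.2‖ ^ 2 = ∑ i, ∑ j, ‖X i j‖ ^ 2 := by
    rw [Fintype.sum_prod_type]
  have h4 : ∑ q : n × n, ‖Y q.2 q.1‖ ^ 2 = ∑ i, ∑ j, ‖Y i j‖ ^ 2 := by
    rw [Fintype.sum_prod_type, Finset.sum_comm]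
  rw [h3, h4] at h2
  refine le_trans ?_ h2
  exact pow_le_pow_left₀ (norm_nonneg _) h1 2

/-- If a word attains the maximum and is split in two halves, the doubled first half attains
the maximum too. -/
theorem double (B : Bool → Matrix n n ℂ) (hB : ∀ b, (B b)ᴴ = B b) (k : ℕ) (M : ℝ) (hM : 0 < M)
    (hmax : ∀ w : List Bool, w.length = 2 * k → ‖(P B w).trace‖ ≤ M)
    (u v : List Bool) (hu : u.length = k) (hv : v.length = k) (h : ‖(P B (u ++ v)).trace‖ = M) :
    M ≤ (P B (u ++ u.reverse)).trace.re := by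
  have h1 := cs (P B u) (P B v)
  rw [← P_append, h] at h1
  have h2 : ((P B v)ᴴ * P B v).trace.re ≤ M := by
    rw [← P_reverse B hB, ← P_append]
    refine (Complex.re_le_norm _).trans (hmax _ ?_)
    simp; omega
  have h3 : 0 ≤ (P B u * (P B u)ᴴ).trace.re := by
    rw [trace_self]; positivity
  rw [P_append, P_reverse B hB]
  have h4 : M ^ 2 ≤ (P B u * (P B u)ᴴ).trace.re * M :=
    h1.trans (mul_le_mul_of_nonneg_left h2 h3)
  nlinarith

theorem trace_rot (B : Bool → Matrix n n ℂ) (u v : List Bool) :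
    (P B (u ++ v)).trace = (P B (v ++ u)).trace := by
  rw [P_append, P_append, Matrix.trace_mul_comm]

theorem chess (B : Bool → Matrix n n ℂ) (hB : ∀ b, (B b)ᴴ = B b) (k : ℕ) (hk : 1 ≤ k) :
    ∃ b, ∀ w : List Bool, w.length = 2 * k → ‖(P B w).trace‖ ≤ ((B b) ^ (2 * k)).trace.re := by
  obtain ⟨w0, -, hw0⟩ := Finset.exists_max_image (univ : Finset (Fin (2 * k) → Bool))
    (fun w => ‖(P B (List.ofFn w)).trace‖) ⟨fun _ => true, mem_univ _⟩
  set M := ‖(P B (List.ofFn w0)).trace‖ with hMdef
  have hmax : ∀ w : List Bool, w.length = 2 * k → ‖(P B w).trace‖ ≤ M := by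
    intro w hw
    have h1 := hw0 (fun i => w.get (i.cast hw.symm)) (mem_univ _)
    have h2 : List.ofFn (fun i : Fin (2 * k) => w.get (i.cast hw.symm)) = w := by
      apply List.ext_get
      · simp [hw]
      · intro m h1 h2
        simp
    rw [h2] at h1
    exact h1
  have hpow_nonneg : ∀ b, 0 ≤ ((B b) ^ (2 * k)).trace.re := by
    intro b
    have : (B b) ^ (2 * k) = (B b) ^ k * ((B b) ^ k)ᴴ := by
      rw [Matrix.conjTranspose_pow, hB, ← pow_add, two_mul]
    rw [this, trace_self]; positivity
  rcases (norm_nonneg (P B (List.ofFn w0)).trace).eq_or_lt with h0 | hMpos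
  · refine ⟨true, fun w hw => (hmax w hw).trans ?_⟩
    rw [hMdef, ← h0]
    exact hpow_nonneg true
  · -- run of length r
    have hrun : ∀ r : ℕ, 1 ≤ r → r ≤ k → ∃ (b : Bool) (w' : List Bool), w'.length = 2 * k - r ∧
        ‖(P B (List.replicate r b ++ w')).trace‖ = M := by
      intro r hr
      induction r, hr using Nat.le_induction with
      | base =>
        intro _
        have hlen : (List.ofFn w0).length = 2 * k := by simp
        match hL : List.ofFn w0 with
        | [] => rw [hL] at hlen; simp at hlen; omega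
        | a :: l =>
          refine ⟨a, l, ?_, ?_⟩
          · rw [hL] at hlen; simp at hlen; omega
          · rw [hMdef, hL]; rfl
      | succ r hr ih =>
        intro hrk
        obtain ⟨b, w', hlen, hval⟩ := ih (by omega)
        -- split w' = w1 ++ w2, |w1| = k
        set w1 := w'.take k with hw1
        set w2 := w'.drop k with hw2
        have hsplit : w' = w1 ++ w2 := (List.take_append_drop k w').symm
        have hl1 : w1.length = k := by rw [hw1, List.length_take]; omega
        have hl2 : w2.length = k - r := by rw [hw2, List.length_drop]; omega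
        have hval2 : ‖(P B ((w2 ++ List.replicate r b) ++ w1)).trace‖ = M := by
          rw [List.append_assoc, trace_rot, List.append_assoc, ← hsplit]
          exact hval
        have h1 := double B hB k M hMpos hmax (w2 ++ List.replicate r b) w1
          (by rw [List.length_append, hl2, List.length_replicate]; omega) hl1 hval2
        obtain ⟨m, rfl⟩ : ∃ m, r = m + 1 := ⟨r - 1, by omega⟩
        refine ⟨b, List.replicate m b ++ (w2.reverse ++ w2), ?_, ?_⟩
        · simp only [List.length_append, List.length_replicate, List.length_reverse, hl2]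
          omega
        · have heq : (P B (List.replicate (m + 1 + 1) b ++
              (List.replicate m b ++ (w2.reverse ++ w2)))).trace =
              (P B ((w2 ++ List.replicate (m + 1) b) ++ (w2 ++ List.replicate (m + 1) b).reverse)).trace := by
            have e1 : List.replicate (m + 1 + 1) b ++ (List.replicate m b ++ (w2.reverse ++ w2)) =
                (List.replicate (m + 1) b ++ (List.replicate (m + 1) b ++ w2.reverse)) ++ w2 := by
              have e2 : List.replicate (m + 1 + 1) b ++ List.replicate m b =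
                  List.replicate (m + 1) b ++ List.replicate (m + 1) b := by
                rw [← List.replicate_add, ← List.replicate_add]
                congr 1; ring
              rw [← List.append_assoc, e2]
              simp only [List.append_assoc]
            rw [e1, trace_rot]
            simp only [List.reverse_append, List.reverse_replicate, List.append_assoc]
          rw [heq]
          apply le_antisymm
          · apply hmax
            simp only [List.length_append, List.length_replicate, List.length_reverse, hl2]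
            omega
          · exact h1.trans (Complex.re_le_norm _)
    obtain ⟨b, w', hlen, hval⟩ := hrun k hk le_rfl
    refine ⟨b, fun w hw => (hmax w hw).trans ?_⟩
    have h1 := double B hB k M hMpos hmax (List.replicate k b) w' (by simp) (by omega) hval
    rw [List.reverse_replicate, ← List.replicate_add, P_replicate, ← two_mul] at h1
    exact h1

/-- `0 ≤ Tr(A^{2k}) - Tr((SA)^{2k})` for Hermitian `A` and a Hermitian involution `S`. -/
theorem trace_ineq (A S : Matrix n n ℂ) (hA : Aᴴ = A) (hS : Sᴴ = S) (hSS : S * S = 1)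
    (k : ℕ) (hk : 1 ≤ k) :
    (0 : ℂ) ≤ (A ^ (2 * k)).trace - ((S * A) ^ (2 * k)).trace := by
  let B : Bool → Matrix n n ℂ := fun b => if b then A else S * A * S
  have hB : ∀ b, (B b)ᴴ = B b := by
    intro b
    cases b
    · simp only [B, Bool.false_eq_true, if_false]
      rw [Matrix.conjTranspose_mul, Matrix.conjTranspose_mul, hA, hS, Matrix.mul_assoc]
    · simp [B, hA]
  obtain ⟨b, hb⟩ := chess B hB k hk
  have hpow : ∀ m : ℕ, (S * A * S) ^ m = S * A ^ m * S := by
    intro m
    induction m with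
    | zero => simp [hSS]
    | succ m ih =>
      rw [pow_succ, ih, pow_succ]
      calc S * A ^ m * S * (S * A * S) = S * A ^ m * (S * S) * A * S := by
            simp only [Matrix.mul_assoc]
        _ = _ := by rw [hSS, Matrix.mul_one]; simp only [Matrix.mul_assoc]
  have hb2 : ((B b) ^ (2 * k)).trace = (A ^ (2 * k)).trace := by
    cases b
    · simp only [B, Bool.false_eq_true, if_false]
      rw [hpow, Matrix.trace_mul_comm, ← Matrix.mul_assoc, hSS, Matrix.one_mul]
    · simp [B]
  rw [hb2] at hb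
  have hword : (S * A) ^ (2 * k) = P B (List.replicate k [false, true]).flatten := by
    have h1 : ∀ m : ℕ, (S * A) ^ (2 * m) = P B (List.replicate m [false, true]).flatten := by
      intro m
      induction m with
      | zero => simp [P]
      | succ m ih =>
        rw [List.replicate_succ, List.flatten_cons, P_append, ← ih]
        have : P B [false, true] = (S * A) ^ 2 := by
          simp only [P, List.map_cons, List.map_nil, List.prod_cons, List.prod_nil, mul_one, B,
            Bool.false_eq_true, if_false, if_true, sq]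
          simp only [Matrix.mul_assoc]
        rw [this, ← pow_add]
        congr 1; ring
    exact h1 k
  have hlen : (List.replicate k [false, true]).flatten.length = 2 * k := by
    simp [mul_comm]
  have hmain := hb _ hlen
  rw [← hword] at hmain
  have him1 : (A ^ (2 * k)).trace.im = 0 := by
    have h : (A ^ (2 * k))ᴴ = A ^ (2 * k) := by rw [Matrix.conjTranspose_pow, hA]
    have h2 := Matrix.trace_conjTranspose (A ^ (2 * k))
    rw [h] at h2
    exact Complex.conj_eq_iff_im.1 h2.symm
  have him2 : ((S * A) ^ (2 * k)).trace.im = 0 := by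
    have h : ((S * A) ^ (2 * k))ᴴ = (A * S) ^ (2 * k) := by
      rw [Matrix.conjTranspose_pow, Matrix.conjTranspose_mul, hA, hS]
    have h3 : ∀ m : ℕ, (A * S) ^ (m + 1) = A * (S * A) ^ m * S := by
      intro m
      induction m with
      | zero => simp
      | succ m ih =>
        rw [pow_succ, ih, pow_succ]
        simp only [Matrix.mul_assoc]
    have h2 := Matrix.trace_conjTranspose ((S * A) ^ (2 * k))
    rw [h] at h2
    obtain ⟨m, hm⟩ : ∃ m, 2 * k = m + 1 := ⟨2 * k - 1, by omega⟩
    rw [hm, h3, Matrix.trace_mul_comm, ← Matrix.mul_assoc, ← pow_succ'] at h2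
    rw [hm]
    exact Complex.conj_eq_iff_im.1 h2.symm
  rw [Complex.le_def]
  constructor
  · rw [Complex.zero_re, Complex.sub_re]
    have := (Complex.re_le_norm ((S * A) ^ (2 * k)).trace).trans hmain
    linarith
  · rw [Complex.zero_im, Complex.sub_im, him1, him2, sub_zero]

end Chess

section Path

theorem entry_pow {I : Type*} [Fintype I] [DecidableEq I] (B : Matrix I I ℂ) (L : ℕ) :
    ∀ x y : I, (B ^ L) x y = ∑ p : Fin (L + 1) → I,
      if p 0 = x ∧ p (Fin.last L) = y then ∏ i : Fin L, B (p i.castSucc) (p i.succ) else 0 := by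
  induction L with
  | zero =>
    intro x y
    simp only [pow_zero, Finset.univ_eq_empty, Finset.prod_empty]
    have h1 : ∀ p : Fin (0 + 1) → I, (p 0 = x ∧ p (Fin.last 0) = y) ↔ (p = (fun _ => x) ∧ x = y) := by
      intro p
      constructor
      · rintro ⟨h1, h2⟩
        have h2' : p 0 = y := h2
        refine ⟨?_, by rw [← h1, h2']⟩
        funext i
        have : i = 0 := Fin.ext (by omega)
        rw [this, h1]
      · rintro ⟨rfl, rfl⟩
        exact ⟨rfl, rfl⟩
    simp only [h1]
    by_cases hxy : x = y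
    · subst hxy
      simp
    · simp [hxy]
  | succ L ih =>
    intro x y
    rw [pow_succ', Matrix.mul_apply]
    simp only [ih]
    have hL : ∑ z, (B x z * ∑ q : Fin (L + 1) → I, if q 0 = z ∧ q (Fin.last L) = y then
        ∏ i : Fin L, B (q i.castSucc) (q i.succ) else 0) =
        ∑ q : Fin (L + 1) → I, if q (Fin.last L) = y then
          B x (q 0) * ∏ i : Fin L, B (q i.castSucc) (q i.succ) else 0 := by
      simp only [Finset.mul_sum]
      rw [Finset.sum_comm]
      refine Finset.sum_congr rfl fun q _ => ?_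
      rw [Finset.sum_eq_single (q 0)]
      · by_cases h : q (Fin.last L) = y
        · simp [h]
        · simp [h]
      · intro z _ hz
        rw [if_neg, mul_zero]
        rintro ⟨h, -⟩
        exact hz h.symm
      · intro h; exact absurd (mem_univ _) h
    rw [hL, ← (Fin.consEquiv (fun _ : Fin (L + 1 + 1) => I)).sum_comp, Fintype.sum_prod_type]
    symm
    rw [Finset.sum_eq_single x]
    · refine Finset.sum_congr rfl fun q _ => ?_
      have h0 : (Fin.consEquiv (fun _ : Fin (L + 1 + 1) => I)) (x, q) 0 = x := rfl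
      have h2 : (Fin.consEquiv (fun _ : Fin (L + 1 + 1) => I)) (x, q) (Fin.last (L + 1)) =
          q (Fin.last L) := rfl
      rw [h0, h2, Fin.prod_univ_succ]
      have h3 : B ((Fin.consEquiv (fun _ : Fin (L + 1 + 1) => I)) (x, q) (Fin.castSucc 0))
          ((Fin.consEquiv (fun _ : Fin (L + 1 + 1) => I)) (x, q) (Fin.succ 0)) = B x (q 0) := rfl
      have h4 : ∀ i : Fin L, B ((Fin.consEquiv (fun _ : Fin (L + 1 + 1) => I)) (x, q) i.succ.castSucc)
          ((Fin.consEquiv (fun _ : Fin (L + 1 + 1) => I)) (x, q) i.succ.succ) =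
          B (q i.castSucc) (q i.succ) := fun i => rfl
      rw [h3]
      simp only [h4]
      by_cases h : q (Fin.last L) = y
      · simp [h]
      · simp [h]
    · intro z _ hz
      refine Finset.sum_eq_zero fun q _ => ?_
      have h0 : (Fin.consEquiv (fun _ : Fin (L + 1 + 1) => I)) (z, q) 0 = z := rfl
      rw [h0, if_neg]
      rintro ⟨h, -⟩
      exact hz h
    · intro h; exact absurd (mem_univ _) h

theorem trace_pow (s : Finset ℤ) (b : ℤ → ℤ → ℂ) (L : ℕ) :
    ((Matrix.of fun x y : s => b x y) ^ L).trace =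
      ∑ p ∈ Fintype.piFinset (fun _ : Fin (L + 1) => s),
        if p 0 = p (Fin.last L) then ∏ i : Fin L, b (p i.castSucc) (p i.succ) else 0 := by
  have h1 : ((Matrix.of fun x y : s => b x y) ^ L).trace =
      ∑ p : Fin (L + 1) → s, if p 0 = p (Fin.last L) then
        ∏ i : Fin L, b (p i.castSucc) (p i.succ) else 0 := by
    simp only [Matrix.trace, Matrix.diag, entry_pow]
    rw [Finset.sum_comm]
    refine Finset.sum_congr rfl fun p _ => ?_
    rw [Finset.sum_eq_single (p 0)]
    · simp only [true_and, Matrix.of_apply, eq_comm]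
    · intro x _ hx
      rw [if_neg]
      rintro ⟨h, -⟩
      exact hx h.symm
    · intro h; exact absurd (mem_univ _) h
  rw [h1]
  refine Finset.sum_bij (fun p _ => fun i => (p i : ℤ)) ?_ ?_ ?_ ?_
  · intro p _
    rw [Fintype.mem_piFinset]
    exact fun i => (p i).2
  · intro p _ q _ h
    funext i
    exact Subtype.ext (congrFun h i)
  · intro p hp
    rw [Fintype.mem_piFinset] at hp
    exact ⟨fun i => ⟨p i, hp i⟩, mem_univ _, rfl⟩
  · intro p _
    simp only [Subtype.ext_iff]

end Path

section Combi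

/-- positions along a path with steps `j` starting at `n` -/
def pos {L : ℕ} (j : Fin L → ℤ) (n : ℤ) (i : Fin (L + 1)) : ℤ :=
  n + ∑ l ∈ univ.filter (fun l : Fin L => l.val < i.val), j l

theorem pos_castSucc {L : ℕ} (j : Fin L → ℤ) (n : ℤ) (i : Fin L) :
    pos j n i.castSucc = n + ∑ l ∈ Finset.Iio i, j l := by
  unfold pos
  congr 1
  refine Finset.sum_congr ?_ fun _ _ => rfl
  ext l
  rw [mem_filter, Finset.mem_Iio, Fin.lt_def, Fin.val_castSucc]
  exact ⟨fun h => h.2, fun h => ⟨mem_univ _, h⟩⟩

theorem pos_succ {L : ℕ} (j : Fin L → ℤ) (n : ℤ) (i : Fin L) :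
    pos j n i.succ = pos j n i.castSucc + j i := by
  unfold pos
  have h : univ.filter (fun l : Fin L => l.val < i.succ.val) =
      insert i (univ.filter (fun l : Fin L => l.val < i.castSucc.val)) := by
    ext l
    simp only [mem_filter, mem_univ, true_and, mem_insert, Fin.val_succ, Fin.val_castSucc]
    constructor
    · intro h
      rcases Nat.lt_succ_iff_lt_or_eq.1 h with h | h
      · exact Or.inr h
      · exact Or.inl (Fin.ext h)
    · rintro (rfl | h)
      · omega
      · omega
  rw [h, Finset.sum_insert (by simp)]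
  ring

theorem pos_zero {L : ℕ} (j : Fin L → ℤ) (n : ℤ) : pos j n 0 = n := by
  unfold pos
  rw [Finset.filter_false_of_mem (fun l _ => by rw [Fin.val_zero]; exact Nat.not_lt_zero _),
    Finset.sum_empty, add_zero]

theorem pos_last {L : ℕ} (j : Fin L → ℤ) (n : ℤ) : pos j n (Fin.last L) = n + ∑ i, j i := by
  unfold pos
  rw [Finset.filter_true_of_mem (fun l _ => by rw [Fin.val_last]; exact l.isLt)]

theorem pos_steps {L : ℕ} (p : Fin (L + 1) → ℤ) :
    pos (fun i => p i.succ - p i.castSucc) (p 0) = p := by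
  funext i
  induction i using Fin.induction with
  | zero => exact pos_zero _ _
  | succ i ih => rw [pos_succ, ih]; ring

theorem pos_bound {L : ℕ} (j : Fin L → ℤ) (n : ℤ) (d : ℕ) (hj : ∀ i, |j i| ≤ d) (i : Fin (L + 1)) :
    |pos j n i - n| ≤ L * d := by
  unfold pos
  rw [add_sub_cancel_left]
  refine (Finset.abs_sum_le_sum_abs _ _).trans ?_
  refine (Finset.sum_le_sum fun l _ => hj l).trans ?_
  rw [Finset.sum_const, nsmul_eq_mul]
  have : (univ.filter (fun l : Fin L => l.val < i.val)).card ≤ L := by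
    refine (Finset.card_filter_le _ _).trans ?_
    simp
  have h2 : ((univ.filter (fun l : Fin L => l.val < i.val)).card : ℤ) ≤ L := by exact_mod_cast this
  exact mul_le_mul_of_nonneg_right h2 (by positivity)

/-- the summand of `N_j` -/
def G {L : ℕ} (j : Fin L → ℤ) (n : ℤ) : ℤ :=
  |∏ i : Fin L, pos j n i.castSucc| - ∏ i : Fin L, pos j n i.castSucc

theorem G_eq_zero {k : ℕ} (j : Fin (2 * k) → ℤ) (n : ℤ) (d : ℕ) (hj : ∀ i, |j i| ≤ d)
    (i0 : Fin (2 * k + 1)) (h : (2 * (2 * k) * d : ℤ) < |pos j n i0|) : G j n = 0 := by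
  unfold G
  rw [sub_eq_zero, abs_eq_self]
  have hb := pos_bound j n d hj
  push_cast at hb
  rcases lt_or_ge 0 (pos j n i0) with h1 | h1
  · refine Finset.prod_nonneg fun i _ => ?_
    rw [abs_of_pos h1] at h
    have h2 := abs_le.1 (hb i0)
    have h3 := abs_le.1 (hb i.castSucc)
    nlinarith [h2.1, h2.2, h3.1, h3.2]
  · have h4 : ∀ i : Fin (2 * k), 0 ≤ -(pos j n i.castSucc) := by
      intro i
      rw [abs_of_nonpos h1] at h
      have h2 := abs_le.1 (hb i0)
      have h3 := abs_le.1 (hb i.castSucc)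
      nlinarith [h2.1, h2.2, h3.1, h3.2]
    have h5 : ∏ i : Fin (2 * k), pos j n i.castSucc = ∏ i : Fin (2 * k), -(pos j n i.castSucc) := by
      rw [Finset.prod_neg]
      simp
    rw [h5]
    exact Finset.prod_nonneg fun i _ => h4 i

theorem combi (c : ℤ → ℂ) (k d : ℕ) :
    ∑ j ∈ (Fintype.piFinset (fun _ : Fin (2 * k) => Finset.Icc (-d : ℤ) d)).filter
        (fun j => ∑ i, j i = 0),
      (((∑ᶠ n : ℤ, G j n : ℤ)) : ℂ) * ∏ i, c (j i) =
    ∑ p ∈ Fintype.piFinset (fun _ : Fin (2 * k + 1) =>
        Finset.Icc (-(2 * (2 * k) * d) : ℤ) (2 * (2 * k) * d)),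
      if p 0 = p (Fin.last _) then
        ((|∏ i : Fin (2 * k), p i.castSucc| - ∏ i : Fin (2 * k), p i.castSucc : ℤ) : ℂ) *
          ∏ i : Fin (2 * k), (if |p i.succ - p i.castSucc| ≤ d then c (p i.succ - p i.castSucc) else 0)
      else 0 := by
  set s := Finset.Icc (-(2 * (2 * k) * d) : ℤ) (2 * (2 * k) * d) with hs
  set J := (Fintype.piFinset (fun _ : Fin (2 * k) => Finset.Icc (-d : ℤ) d)).filter
        (fun j => ∑ i, j i = 0) with hJ
  clear_value s J
  have hjb : ∀ j ∈ J, ∀ i, |j i| ≤ (d : ℤ) := by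
    intro j hj i
    rw [hJ, mem_filter, Fintype.mem_piFinset] at hj
    have := mem_Icc.1 (hj.1 i)
    exact abs_le.2 this
  have hfin : ∀ j ∈ J, (∑ᶠ n : ℤ, G j n : ℤ) =
      ∑ n ∈ s, if (∀ i, pos j n i ∈ s) then G j n else 0 := by
    intro j hj
    rw [finsum_eq_sum_of_support_subset (s := s)]
    · refine Finset.sum_congr rfl fun n _ => ?_
      split_ifs with h
      · rfl
      · push Not at h
        obtain ⟨i, hi⟩ := h
        apply G_eq_zero j n d (hjb j hj) i
        rw [hs, mem_Icc, not_and_or] at hi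
        rw [lt_abs]
        rcases hi with h | h
        · right; push Not at h; linarith
        · left; push Not at h; linarith
    · intro n hn
      by_contra hns
      apply hn
      apply G_eq_zero j n d (hjb j hj) 0
      rw [pos_zero]
      have hns' : ¬ (n ∈ s) := hns
      rw [hs, mem_Icc, not_and_or] at hns'
      rw [lt_abs]
      rcases hns' with h | h
      · right; push Not at h; linarith
      · left; push Not at h; linarith
  have h1 : ∑ j ∈ J, (((∑ᶠ n : ℤ, G j n : ℤ)) : ℂ) * ∏ i, c (j i) =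
      ∑ q ∈ (J ×ˢ s).filter (fun q => ∀ i, pos q.1 q.2 i ∈ s), (G q.1 q.2 : ℂ) * ∏ i, c (q.1 i) := by
    rw [Finset.sum_filter, Finset.sum_product]
    refine Finset.sum_congr rfl fun j hj => ?_
    rw [hfin j hj]
    push_cast
    rw [Finset.sum_mul]
    refine Finset.sum_congr rfl fun n _ => ?_
    split_ifs <;> simp
  rw [h1]
  have h2 : ∑ p ∈ Fintype.piFinset (fun _ : Fin (2 * k + 1) => s),
      (if p 0 = p (Fin.last _) then
        ((|∏ i : Fin (2 * k), p i.castSucc| - ∏ i : Fin (2 * k), p i.castSucc : ℤ) : ℂ) *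
          ∏ i : Fin (2 * k), (if |p i.succ - p i.castSucc| ≤ d then c (p i.succ - p i.castSucc) else 0)
      else 0) =
      ∑ p ∈ (Fintype.piFinset (fun _ : Fin (2 * k + 1) => s)).filter
        (fun p => p 0 = p (Fin.last _) ∧ ∀ i : Fin (2 * k), |p i.succ - p i.castSucc| ≤ (d : ℤ)),
        ((|∏ i : Fin (2 * k), p i.castSucc| - ∏ i : Fin (2 * k), p i.castSucc : ℤ) : ℂ) *
          ∏ i : Fin (2 * k), c (p i.succ - p i.castSucc) := by
    rw [Finset.sum_filter]
    refine Finset.sum_congr rfl fun p _ => ?_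
    by_cases ha : p 0 = p (Fin.last _)
    · rw [if_pos ha]
      by_cases hb : ∀ i : Fin (2 * k), |p i.succ - p i.castSucc| ≤ (d : ℤ)
      · rw [if_pos ⟨ha, hb⟩]
        congr 1
        refine Finset.prod_congr rfl fun i _ => ?_
        rw [if_pos (hb i)]
      · rw [if_neg (fun h => hb h.2)]
        push Not at hb
        obtain ⟨i, hi⟩ := hb
        have hz : ∏ i : Fin (2 * k), (if |p i.succ - p i.castSucc| ≤ (d : ℤ) then
            c (p i.succ - p i.castSucc) else 0) = 0 :=
          Finset.prod_eq_zero (mem_univ i) (if_neg (not_le.2 hi))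
        rw [hz, mul_zero]
    · rw [if_neg ha, if_neg (fun h => ha h.1)]
  rw [h2]
  refine Finset.sum_nbij' (fun q => pos q.1 q.2)
    (fun p => (fun i => p i.succ - p i.castSucc, p 0)) ?_ ?_ ?_ ?_ ?_
  · intro q hq
    rw [mem_filter, mem_product, hJ, mem_filter, Fintype.mem_piFinset] at hq
    rw [mem_filter, Fintype.mem_piFinset]
    refine ⟨hq.2, ?_, ?_⟩
    · rw [pos_zero, pos_last, hq.1.1.2, add_zero]
    · intro i
      rw [pos_succ, add_sub_cancel_left]
      exact abs_le.2 (mem_Icc.1 (hq.1.1.1 i))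
  · intro p hp
    rw [mem_filter, Fintype.mem_piFinset] at hp
    rw [mem_filter, mem_product, hJ, mem_filter, Fintype.mem_piFinset]
    refine ⟨⟨⟨?_, ?_⟩, hp.1 0⟩, ?_⟩
    · intro i
      exact mem_Icc.2 (abs_le.1 (hp.2.2 i))
    · simp only
      have h3 := pos_last (fun i => p i.succ - p i.castSucc) (p 0)
      rw [pos_steps, ← hp.2.1] at h3
      linarith
    · simp only
      rw [pos_steps]
      exact hp.1
  · intro q _
    ext i
    · simp only [pos_succ, add_sub_cancel_left]
    · simp only [pos_zero]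
  · intro p _
    simp only
    exact pos_steps p
  · intro q _
    simp only [G, pos_succ, add_sub_cancel_left]

theorem trace_pow_comm {n : Type*} [Fintype n] [DecidableEq n] (X Y : Matrix n n ℂ) (L : ℕ) :
    ((X * Y) ^ L).trace = ((Y * X) ^ L).trace := by
  cases L with
  | zero => simp
  | succ m =>
    have h : ∀ m : ℕ, (X * Y) ^ (m + 1) = X * (Y * X) ^ m * Y := by
      intro m
      induction m with
      | zero => simp
      | succ m ih =>
        rw [pow_succ, ih, pow_succ]
        simp only [Matrix.mul_assoc]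
    rw [h, Matrix.trace_mul_comm, ← Matrix.mul_assoc, ← pow_succ']

theorem truncated_nonneg (c : ℤ → ℂ) (hc : ∀ m, c (-m) = (starRingEnd ℂ) (c m)) (k d : ℕ) (hk : 1 ≤ k) :
    (0 : ℂ) ≤ ∑ j ∈ (Fintype.piFinset (fun _ : Fin (2 * k) => Finset.Icc (-d : ℤ) d)).filter
        (fun j => ∑ i, j i = 0),
      (((∑ᶠ n : ℤ, G j n : ℤ)) : ℂ) * ∏ i, c (j i) := by
  rw [combi]
  set s := Finset.Icc (-(2 * (2 * k) * d) : ℤ) (2 * (2 * k) * d) with hs
  let cd : ℤ → ℂ := fun m => if |m| ≤ d then c m else 0
  have hcd : ∀ m, cd (-m) = (starRingEnd ℂ) (cd m) := by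
    intro m
    simp only [cd, abs_neg]
    split_ifs
    · exact hc m
    · simp
  let C : Matrix s s ℂ := Matrix.of fun x y => cd ((y : ℤ) - x)
  let R : Matrix s s ℂ := Matrix.diagonal fun x => ((√|((x : ℤ) : ℝ)| : ℝ) : ℂ)
  let S : Matrix s s ℂ := Matrix.diagonal fun x => if (x : ℤ) < 0 then (-1 : ℂ) else 1
  let A : Matrix s s ℂ := R * C * R
  have hC : Cᴴ = C := by
    ext x y
    rw [Matrix.conjTranspose_apply]
    simp only [C, Matrix.of_apply]
    rw [Complex.star_def, ← hcd]
    congr 1; ring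
  have hR : Rᴴ = R := by
    simp only [R, Matrix.diagonal_conjTranspose]
    congr 1
    funext x
    simp
  have hS : Sᴴ = S := by
    simp only [S, Matrix.diagonal_conjTranspose]
    congr 1
    funext x
    simp only [Pi.star_apply]
    split_ifs <;> simp
  have hSS : S * S = 1 := by
    simp only [S, Matrix.diagonal_mul_diagonal]
    rw [← Matrix.diagonal_one]
    congr 1
    funext x
    split_ifs <;> norm_num
  have hA : Aᴴ = A := by
    simp only [A, Matrix.conjTranspose_mul, hC, hR, Matrix.mul_assoc]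
  have hmain := trace_ineq A S hA hS hSS k hk
  have hsq : ∀ x : ℤ, (((√|(x : ℝ)| : ℝ) : ℂ)) * ((√|(x : ℝ)| : ℝ) : ℂ) = ((|x| : ℤ) : ℂ) := by
    intro x
    rw [← Complex.ofReal_mul, Real.mul_self_sqrt (abs_nonneg _), ← Int.cast_abs,
      Complex.ofReal_intCast]
  have t1 : (A ^ (2 * k)).trace =
      ((Matrix.of fun x y : s => ((|(x : ℤ)| : ℤ) : ℂ) * cd ((y : ℤ) - x)) ^ (2 * k)).trace := by
    have h1 : (Matrix.of fun x y : s => ((|(x : ℤ)| : ℤ) : ℂ) * cd ((y : ℤ) - x)) = R * (R * C) := by
      rw [← Matrix.mul_assoc]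
      ext x y
      simp only [R, Matrix.diagonal_mul_diagonal, Matrix.diagonal_mul, Matrix.of_apply, C]
      rw [hsq]
    rw [h1, trace_pow_comm R (R * C)]
  have t2 : ((S * A) ^ (2 * k)).trace =
      ((Matrix.of fun x y : s => ((x : ℤ) : ℂ) * cd ((y : ℤ) - x)) ^ (2 * k)).trace := by
    have h1 : (Matrix.of fun x y : s => ((x : ℤ) : ℂ) * cd ((y : ℤ) - x)) = R * (S * R * C) := by
      rw [← Matrix.mul_assoc]
      ext x y
      simp only [R, S, Matrix.diagonal_mul_diagonal, Matrix.diagonal_mul, Matrix.of_apply, C]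
      congr 1
      have h2 := hsq x
      have h3 : (((√|((x : ℤ) : ℝ)| : ℝ) : ℂ)) * ((if (x : ℤ) < 0 then (-1 : ℂ) else 1) *
          ((√|((x : ℤ) : ℝ)| : ℝ) : ℂ)) = (if (x : ℤ) < 0 then (-1 : ℂ) else 1) *
          ((((√|((x : ℤ) : ℝ)| : ℝ) : ℂ)) * ((√|((x : ℤ) : ℝ)| : ℝ) : ℂ)) := by ring
      rw [h3, h2]
      split_ifs with h
      · rw [abs_of_neg h]; push_cast; ring
      · rw [abs_of_nonneg (not_lt.1 h), one_mul]
    rw [h1, trace_pow_comm R (S * R * C)]
    congr 2
    simp only [A, Matrix.mul_assoc]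
  rw [t1, t2, trace_pow s (fun x y => ((|x| : ℤ) : ℂ) * cd (y - x)),
    trace_pow s (fun x y => (x : ℂ) * cd (y - x)), ← Finset.sum_sub_distrib] at hmain
  convert hmain using 1
  refine Finset.sum_congr rfl fun p _ => ?_
  split_ifs with h
  · simp only [cd]
    rw [Finset.prod_mul_distrib, Finset.prod_mul_distrib, ← sub_mul]
    congr 1
    rw [Finset.abs_prod]
    push_cast
    rfl
  · simp

/-- The main result for abstract coefficients. -/
theorem tsum_nonneg' (c : ℤ → ℂ) (hc : ∀ m, c (-m) = (starRingEnd ℂ) (c m)) (k : ℕ) (hk : 1 ≤ k) :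
    (0 : ℂ) ≤ ∑' j : {j : Fin (2 * k) → ℤ // ∑ i, j i = 0},
      (((∑ᶠ n : ℤ, G j.1 n : ℤ)) : ℂ) * ∏ i, c (j.1 i) := by
  set F : {j : Fin (2 * k) → ℤ // ∑ i, j i = 0} → ℂ := fun j =>
    (((∑ᶠ n : ℤ, G j.1 n : ℤ)) : ℂ) * ∏ i, c (j.1 i) with hF
  by_cases hsum : Summable F
  · let sd : ℕ → Finset {j : Fin (2 * k) → ℤ // ∑ i, j i = 0} := fun d =>
      (Fintype.piFinset (fun _ : Fin (2 * k) => Finset.Icc (-d : ℤ) d)).subtype
        (fun j => ∑ i, j i = 0)
    have hsd : Filter.Tendsto sd Filter.atTop Filter.atTop := by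
      apply Filter.tendsto_atTop_finset_of_monotone
      · intro d d' hdd j hj
        simp only [sd, Finset.mem_subtype, Fintype.mem_piFinset, mem_Icc] at hj ⊢
        intro i
        have h1 := hj i
        have h2 : (d : ℤ) ≤ d' := by exact_mod_cast hdd
        constructor <;> linarith [h1.1, h1.2]
      · intro j
        refine ⟨(∑ i, |j.1 i|).toNat, ?_⟩
        simp only [sd, Finset.mem_subtype, Fintype.mem_piFinset, mem_Icc]
        intro i
        have h1 : |j.1 i| ≤ ∑ i, |j.1 i| :=
          Finset.single_le_sum (f := fun i => |j.1 i|) (fun _ _ => abs_nonneg _) (mem_univ i)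
        have h2 : ((∑ i, |j.1 i|).toNat : ℤ) = ∑ i, |j.1 i| :=
          Int.toNat_of_nonneg (Finset.sum_nonneg fun _ _ => abs_nonneg _)
        rw [h2]
        exact abs_le.1 h1
    have hlim := hsum.hasSum.comp hsd
    refine ge_of_tendsto' hlim fun d => ?_
    have h1 := truncated_nonneg c hc k d hk
    simp only [Function.comp, sd]
    rw [Finset.sum_subtype_eq_sum_filter (f := fun j : Fin (2 * k) → ℤ =>
      (((∑ᶠ n : ℤ, G j n : ℤ)) : ℂ) * ∏ i, c (j i))]
    exact h1
  · rw [tsum_eq_zero_of_not_summable hsum]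

end Combi

end Pool.Agent.V1175.ZetaInv
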