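import Mathlib

set_option autoImplicit false

namespace Pool.Agent.V1175.LacDense

open Finset MeasureTheory Filter Topology Set
open scoped ENNReal

/-- partial sums -/
noncomputable def S (n : ℕ → ℕ) (m : ℕ) (x : ℝ) : ℝ := ∑ k ∈ range m, Real.cos ((n k : ℝ) * x)

/-- derivative of the partial sums -/
noncomputable def S' (n : ℕ → ℕ) (m : ℕ) (x : ℝ) : ℝ :=
  ∑ k ∈ range m, -((n k : ℝ) * Real.sin ((n k : ℝ) * x))

theorem S_succ (n : ℕ → ℕ) (m : ℕ) (x : ℝ) : S n (m + 1) x = S n m x + Real.cos ((n m : ℝ) * x) := by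
  unfold S; rw [Finset.sum_range_succ]

theorem S_cont (n : ℕ → ℕ) (m : ℕ) : Continuous (S n m) := by
  unfold S; fun_prop

theorem S'_cont (n : ℕ → ℕ) (m : ℕ) : Continuous (S' n m) := by
  unfold S'; fun_prop

theorem S_abs (n : ℕ → ℕ) (m : ℕ) (x : ℝ) : |S n m x| ≤ m := by
  unfold S
  refine (Finset.abs_sum_le_sum_abs _ _).trans ?_
  refine (Finset.sum_le_sum fun k _ => Real.abs_cos_le_one _).trans ?_
  simp

theorem S_deriv (n : ℕ → ℕ) (m : ℕ) (x : ℝ) : HasDerivAt (S n m) (S' n m x) x := by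
  unfold S S'
  apply HasDerivAt.fun_sum
  intro k _
  have h1 : HasDerivAt (fun x : ℝ => (n k : ℝ) * x) (n k : ℝ) x := by
    simpa using (hasDerivAt_id x).const_mul (n k : ℝ)
  have h2 := h1.cos
  exact h2.congr_deriv (by ring)

variable {n : ℕ → ℕ} {q : ℝ}

theorem pow_le (hq : 1 < q) (hn : ∀ k, 0 < n k) (hl : ∀ k, q * (n k : ℝ) ≤ (n (k + 1) : ℝ)) (k : ℕ) :
    q ^ k ≤ (n k : ℝ) := by
  induction k with
  | zero => simp only [pow_zero]; exact_mod_cast hn 0
  | succ k ih =>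
    rw [pow_succ]
    refine le_trans ?_ (hl k)
    rw [mul_comm]
    exact mul_le_mul_of_nonneg_left ih (by linarith)

theorem sum_le (hq : 1 < q) (hn : ∀ k, 0 < n k) (hl : ∀ k, q * (n k : ℝ) ≤ (n (k + 1) : ℝ)) (m : ℕ) :
    ∑ k ∈ range m, (n k : ℝ) ≤ (n m : ℝ) / (q - 1) := by
  have hq1 : 0 < q - 1 := by linarith
  induction m with
  | zero => simp; positivity
  | succ m ih =>
    rw [Finset.sum_range_succ]
    rw [le_div_iff₀ hq1] at ih ⊢
    have := hl m
    nlinarith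

theorem S'_abs (hq : 1 < q) (hn : ∀ k, 0 < n k) (hl : ∀ k, q * (n k : ℝ) ≤ (n (k + 1) : ℝ)) (m : ℕ)
    (x : ℝ) : |S' n m x| ≤ (n m : ℝ) / (q - 1) := by
  refine le_trans ?_ (sum_le hq hn hl m)
  unfold S'
  refine (Finset.abs_sum_le_sum_abs _ _).trans ?_
  refine Finset.sum_le_sum fun k _ => ?_
  rw [abs_neg, abs_mul, abs_of_nonneg (Nat.cast_nonneg _)]
  calc (n k : ℝ) * |Real.sin ((n k : ℝ) * x)| ≤ (n k : ℝ) * 1 :=
        mul_le_mul_of_nonneg_left (Real.abs_sin_le_one _) (Nat.cast_nonneg _)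
    _ = n k := mul_one _

theorem lt_mul (hq : 1 < q) (hl : ∀ k, q * (n k : ℝ) ≤ (n (k + 1) : ℝ))
    {k m : ℕ} (h : k < m) : q * (n k : ℝ) ≤ n m := by
  induction m, h using Nat.le_induction with
  | base => exact hl k
  | succ m hm ih =>
    refine ih.trans (le_trans ?_ (hl m))
    have : (0 : ℝ) ≤ n m := Nat.cast_nonneg _
    nlinarith

theorem int_cos {N : ℝ} (hN : 0 < N) (a b : ℝ) : |∫ x in a..b, Real.cos (N * x)| ≤ 2 / N := by
  have h : ∫ x in a..b, Real.cos (N * x) = Real.sin (N * b) / N - Real.sin (N * a) / N := by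
    apply intervalIntegral.integral_eq_sub_of_hasDerivAt
    · intro x _
      have h1 : HasDerivAt (fun x : ℝ => N * x) N x := by
        simpa using (hasDerivAt_id x).const_mul N
      have h2 := h1.sin.div_const N
      exact h2.congr_deriv (by field_simp)
    · apply Continuous.intervalIntegrable; fun_prop
  rw [h, ← sub_div, abs_div, abs_of_pos hN]
  apply div_le_div_of_nonneg_right _ hN.le
  have h1 := Real.abs_sin_le_one (N * b)
  have h2 := Real.abs_sin_le_one (N * a)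
  have := abs_sub (Real.sin (N * b)) (Real.sin (N * a))
  linarith

theorem int_cos_cos {A B : ℝ} (hA : 0 < A) (hAB : A < B) (a b : ℝ) :
    |∫ x in a..b, Real.cos (A * x) * Real.cos (B * x)| ≤ 2 / (B - A) := by
  have h : ∀ x : ℝ, Real.cos (A * x) * Real.cos (B * x) =
      1 / 2 * Real.cos ((B - A) * x) + 1 / 2 * Real.cos ((B + A) * x) := by
    intro x
    have e1 : (B - A) * x = B * x - A * x := by ring
    have e2 : (B + A) * x = B * x + A * x := by ring
    rw [e1, e2, Real.cos_sub, Real.cos_add]; ring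
  simp only [h]
  rw [intervalIntegral.integral_add (by apply Continuous.intervalIntegrable; fun_prop)
    (by apply Continuous.intervalIntegrable; fun_prop), intervalIntegral.integral_const_mul,
    intervalIntegral.integral_const_mul]
  have h1 := int_cos (sub_pos.2 hAB) a b
  have h2 := int_cos (by linarith : 0 < B + A) a b
  have h3 : 2 / (B + A) ≤ 2 / (B - A) := by
    apply div_le_div_of_nonneg_left (by norm_num) (sub_pos.2 hAB) (by linarith)
  refine (abs_add_le _ _).trans ?_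
  rw [abs_mul, abs_mul]
  norm_num
  linarith

theorem int_cos_sq {N : ℝ} (hN : 0 < N) (a b : ℝ) :
    |(∫ x in a..b, Real.cos (N * x) ^ 2) - (b - a) / 2| ≤ 1 / (2 * N) := by
  have h : ∀ x : ℝ, Real.cos (N * x) ^ 2 = 1 / 2 + 1 / 2 * Real.cos (2 * N * x) := by
    intro x
    rw [Real.cos_sq]
    have : 2 * N * x = 2 * (N * x) := by ring
    rw [this]; ring
  simp only [h]
  rw [intervalIntegral.integral_add (by simp)
    (by apply Continuous.intervalIntegrable; fun_prop), intervalIntegral.integral_const_mul,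
    intervalIntegral.integral_const]
  have h1 := int_cos (by linarith : 0 < 2 * N) a b
  have h2 : (b - a) • (1 / 2 : ℝ) + 1 / 2 * (∫ x in a..b, Real.cos (2 * N * x)) - (b - a) / 2 =
      1 / 2 * (∫ x in a..b, Real.cos (2 * N * x)) := by
    simp only [smul_eq_mul]; ring
  rw [h2, abs_mul, abs_of_pos (by norm_num : (0 : ℝ) < 1 / 2)]
  have h4 : 1 / (2 * N) = 1 / 2 * (2 / (2 * N)) := by field_simp
  rw [h4]
  linarith

/-- bound for the error sums -/
theorem exists_T (hq : 1 < q) (hn : ∀ k, 0 < n k) (hl : ∀ k, q * (n k : ℝ) ≤ (n (k + 1) : ℝ)) :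
    ∃ T : ℝ, 0 ≤ T ∧ ∀ m, ∑ j ∈ range m, ((j : ℝ) + 1) ^ 3 / (n j : ℝ) ≤ T := by
  have hq0 : 0 < q := by linarith
  have hs : Summable (fun j : ℕ => ((j : ℝ) + 1) ^ 3 * q * (1 / q) ^ (j + 1)) := by
    have h1 := summable_pow_mul_geometric_of_norm_lt_one (R := ℝ) 3 (r := 1 / q)
      (by rw [Real.norm_of_nonneg (by positivity), div_lt_one hq0]; exact hq)
    have h2 := ((summable_nat_add_iff 1).2 h1).mul_left q
    refine h2.congr fun j => ?_
    push_cast
    ring
  have hle : ∀ j : ℕ, ((j : ℝ) + 1) ^ 3 / (n j : ℝ) ≤ ((j : ℝ) + 1) ^ 3 * q * (1 / q) ^ (j + 1) := by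
    intro j
    have h1 := pow_le hq hn hl j
    have h2 : q * (1 / q) ^ (j + 1) = 1 / q ^ j := by
      rw [one_div_pow, pow_succ]; field_simp
    rw [mul_assoc, h2, mul_one_div]
    exact div_le_div_of_nonneg_left (by positivity) (by positivity) h1
  refine ⟨∑' j : ℕ, ((j : ℝ) + 1) ^ 3 * q * (1 / q) ^ (j + 1), tsum_nonneg fun j => by positivity,
    fun m => ?_⟩
  refine (Finset.sum_le_sum fun j _ => hle j).trans ?_
  exact hs.sum_le_tsum _ fun j _ => by positivity

theorem int_S {T : ℝ} (hn : ∀ k, 0 < n k)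
    (hT : ∀ m, ∑ j ∈ range m, ((j : ℝ) + 1) ^ 3 / (n j : ℝ) ≤ T) (a b : ℝ) (m : ℕ) :
    |∫ x in a..b, S n m x| ≤ 2 * T := by
  have h : ∫ x in a..b, S n m x = ∑ k ∈ range m, ∫ x in a..b, Real.cos ((n k : ℝ) * x) := by
    unfold S
    rw [intervalIntegral.integral_finsetSum]
    intro k _
    apply Continuous.intervalIntegrable; fun_prop
  rw [h]
  refine (Finset.abs_sum_le_sum_abs _ _).trans ?_
  have h2 : ∀ k ∈ range m, |∫ x in a..b, Real.cos ((n k : ℝ) * x)| ≤
      2 * (((k : ℝ) + 1) ^ 3 / (n k : ℝ)) := by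
    intro k _
    have hk : (0 : ℝ) < n k := by exact_mod_cast hn k
    refine (int_cos hk a b).trans ?_
    rw [← mul_div_assoc]
    apply div_le_div_of_nonneg_right _ hk.le
    have : (1 : ℝ) ≤ ((k : ℝ) + 1) ^ 3 := one_le_pow₀ (by linarith [(Nat.cast_nonneg k : (0 : ℝ) ≤ k)])
    linarith
  refine (Finset.sum_le_sum h2).trans ?_
  rw [← Finset.mul_sum]
  exact mul_le_mul_of_nonneg_left (hT m) (by norm_num)

theorem int_S_cos (hq : 1 < q) (hn : ∀ k, 0 < n k) (hl : ∀ k, q * (n k : ℝ) ≤ (n (k + 1) : ℝ))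
    (a b : ℝ) (m : ℕ) :
    |∫ x in a..b, S n m x * Real.cos ((n m : ℝ) * x)| ≤ 2 * q / (q - 1) * (m / (n m : ℝ)) := by
  have hq1 : 0 < q - 1 := by linarith
  have hm0 : (0 : ℝ) < n m := by exact_mod_cast hn m
  have h : ∫ x in a..b, S n m x * Real.cos ((n m : ℝ) * x) =
      ∑ k ∈ range m, ∫ x in a..b, Real.cos ((n k : ℝ) * x) * Real.cos ((n m : ℝ) * x) := by
    unfold S
    simp only [Finset.sum_mul]
    rw [intervalIntegral.integral_finsetSum]
    intro k _
    apply Continuous.intervalIntegrable; fun_prop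
  rw [h]
  refine (Finset.abs_sum_le_sum_abs _ _).trans ?_
  have h2 : ∀ k ∈ range m, |∫ x in a..b, Real.cos ((n k : ℝ) * x) * Real.cos ((n m : ℝ) * x)| ≤
      2 * q / (q - 1) * (1 / (n m : ℝ)) := by
    intro k hk
    have hk0 : (0 : ℝ) < n k := by exact_mod_cast hn k
    have h3 := lt_mul hq hl (Finset.mem_range.1 hk)
    have h4 : (n k : ℝ) < n m := by nlinarith
    refine (int_cos_cos hk0 h4 a b).trans ?_
    have h5 : (n m : ℝ) * ((q - 1) / q) ≤ (n m : ℝ) - n k := by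
      rw [← mul_div_assoc, div_le_iff₀ (by linarith)]
      nlinarith
    calc 2 / ((n m : ℝ) - n k) ≤ 2 / ((n m : ℝ) * ((q - 1) / q)) := by
          apply div_le_div_of_nonneg_left (by norm_num) (by positivity) h5
      _ = 2 * q / (q - 1) * (1 / (n m : ℝ)) := by
          field_simp
  refine (Finset.sum_le_sum h2).trans ?_
  rw [Finset.sum_const, Finset.card_range, nsmul_eq_mul]
  apply le_of_eq
  ring

theorem int_S_sq {T : ℝ} (hq : 1 < q) (hn : ∀ k, 0 < n k) (hl : ∀ k, q * (n k : ℝ) ≤ (n (k + 1) : ℝ))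
    (hT : ∀ m, ∑ j ∈ range m, ((j : ℝ) + 1) ^ 3 / (n j : ℝ) ≤ T) (a b : ℝ) (m : ℕ) :
    |(∫ x in a..b, S n m x ^ 2) - m * ((b - a) / 2)| ≤ (1 + 4 * q / (q - 1)) * T := by
  have hq1 : 0 < q - 1 := by linarith
  have hstep : ∀ m : ℕ, |(∫ x in a..b, S n m x ^ 2) - m * ((b - a) / 2)| ≤
      (1 + 4 * q / (q - 1)) * ∑ j ∈ range m, ((j : ℝ) + 1) ^ 3 / (n j : ℝ) := by
    intro m
    induction m with
    | zero => simp [S]
    | succ m ih =>
      have hm0 : (0 : ℝ) < n m := by exact_mod_cast hn m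
      have h1 : ∫ x in a..b, S n (m + 1) x ^ 2 = (∫ x in a..b, S n m x ^ 2) +
          (2 * (∫ x in a..b, S n m x * Real.cos ((n m : ℝ) * x)) +
            ∫ x in a..b, Real.cos ((n m : ℝ) * x) ^ 2) := by
        have hS := S_cont n m
        rw [← intervalIntegral.integral_const_mul, ← intervalIntegral.integral_add,
          ← intervalIntegral.integral_add]
        · refine intervalIntegral.integral_congr fun x _ => ?_
          simp only [S_succ]; ring
        all_goals apply Continuous.intervalIntegrable; fun_prop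
      rw [h1, Finset.sum_range_succ]
      have h2 := int_S_cos hq hn hl a b m
      have h3 := int_cos_sq hm0 a b
      have h4 : (∫ x in a..b, S n m x ^ 2) +
          (2 * (∫ x in a..b, S n m x * Real.cos ((n m : ℝ) * x)) +
            ∫ x in a..b, Real.cos ((n m : ℝ) * x) ^ 2) - ((m + 1 : ℕ) : ℝ) * ((b - a) / 2) =
          ((∫ x in a..b, S n m x ^ 2) - m * ((b - a) / 2)) +
          (2 * (∫ x in a..b, S n m x * Real.cos ((n m : ℝ) * x)) +
            ((∫ x in a..b, Real.cos ((n m : ℝ) * x) ^ 2) - (b - a) / 2)) := by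
        push_cast; ring
      rw [h4]
      refine (abs_add_le _ _).trans ?_
      rw [mul_add]
      refine add_le_add ih ?_
      refine (abs_add_le _ _).trans ?_
      rw [abs_mul, abs_two]
      have hm1 : (m : ℝ) ≤ ((m : ℝ) + 1) ^ 3 := by
        have : (0 : ℝ) ≤ m := Nat.cast_nonneg m
        nlinarith [mul_nonneg this this, mul_nonneg (mul_nonneg this this) this]
      have hm2 : (1 : ℝ) ≤ ((m : ℝ) + 1) ^ 3 := one_le_pow₀ (by linarith [(Nat.cast_nonneg m : (0 : ℝ) ≤ m)])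
      have h5 : (m : ℝ) / (n m : ℝ) ≤ ((m : ℝ) + 1) ^ 3 / (n m : ℝ) :=
        div_le_div_of_nonneg_right hm1 hm0.le
      have h6 : 1 / (2 * (n m : ℝ)) ≤ ((m : ℝ) + 1) ^ 3 / (n m : ℝ) := by
        rw [div_le_div_iff₀ (by positivity) hm0]
        nlinarith
      have h7 : 2 * q / (q - 1) * ((m : ℝ) / (n m : ℝ)) ≤
          2 * q / (q - 1) * (((m : ℝ) + 1) ^ 3 / (n m : ℝ)) :=
        mul_le_mul_of_nonneg_left h5 (by positivity)
      have h8 : (1 + 4 * q / (q - 1)) * (((m : ℝ) + 1) ^ 3 / (n m : ℝ)) =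
          ((m : ℝ) + 1) ^ 3 / (n m : ℝ) + 2 * (2 * q / (q - 1) * (((m : ℝ) + 1) ^ 3 / (n m : ℝ))) := by
        ring
      rw [h8]
      linarith
  refine (hstep m).trans ?_
  exact mul_le_mul_of_nonneg_left (hT m) (by positivity)

theorem int_S_cube (hq : 1 < q) (hn : ∀ k, 0 < n k) (hl : ∀ k, q * (n k : ℝ) ≤ (n (k + 1) : ℝ))
    {a b : ℝ} (hab : a ≤ b) (m : ℕ) :
    |∫ x in a..b, S n m x ^ 3 * Real.cos ((n m : ℝ) * x)| ≤
      2 * (m : ℝ) ^ 3 / (n m : ℝ) + 3 / (q - 1) * ∫ x in a..b, S n m x ^ 2 := by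
  have hq1 : 0 < q - 1 := by linarith
  have hm0 : (0 : ℝ) < n m := by exact_mod_cast hn m
  have hS := S_cont n m
  have hS' := S'_cont n m
  have hparts := intervalIntegral.integral_mul_deriv_eq_deriv_mul (a := a) (b := b)
    (u := fun x => S n m x ^ 3) (v := fun x => Real.sin ((n m : ℝ) * x) / (n m : ℝ))
    (u' := fun x => 3 * S n m x ^ 2 * S' n m x) (v' := fun x => Real.cos ((n m : ℝ) * x))
    (by
      intro x _
      exact ((S_deriv n m x).fun_pow 3).congr_deriv (by norm_num))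
    (by
      intro x _
      have h1 : HasDerivAt (fun x : ℝ => (n m : ℝ) * x) (n m : ℝ) x := by
        simpa using (hasDerivAt_id x).const_mul (n m : ℝ)
      have h2 := h1.sin.div_const (n m : ℝ)
      exact h2.congr_deriv (by field_simp))
    (by apply Continuous.intervalIntegrable; fun_prop)
    (by apply Continuous.intervalIntegrable; fun_prop)
  rw [hparts]
  have hbd : ∀ x : ℝ, |S n m x ^ 3 * (Real.sin ((n m : ℝ) * x) / (n m : ℝ))| ≤ (m : ℝ) ^ 3 / (n m : ℝ) := by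
    intro x
    rw [abs_mul, abs_div, abs_of_pos hm0, ← mul_div_assoc, abs_pow]
    apply div_le_div_of_nonneg_right _ hm0.le
    calc |S n m x| ^ 3 * |Real.sin ((n m : ℝ) * x)| ≤ (m : ℝ) ^ 3 * 1 := by
          apply mul_le_mul (pow_le_pow_left₀ (abs_nonneg _) (S_abs n m x) 3)
            (Real.abs_sin_le_one _) (abs_nonneg _) (by positivity)
      _ = (m : ℝ) ^ 3 := mul_one _
  have hint : |∫ x in a..b, 3 * S n m x ^ 2 * S' n m x * (Real.sin ((n m : ℝ) * x) / (n m : ℝ))| ≤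
      3 / (q - 1) * ∫ x in a..b, S n m x ^ 2 := by
    rw [← intervalIntegral.integral_const_mul, ← Real.norm_eq_abs]
    apply intervalIntegral.norm_integral_le_of_norm_le hab
    · filter_upwards with x _
      rw [Real.norm_eq_abs, abs_mul, abs_mul, abs_mul, abs_div, abs_of_pos hm0, abs_pow, sq_abs]
      have h1 := S'_abs hq hn hl m x
      have h2 := Real.abs_sin_le_one ((n m : ℝ) * x)
      have h3 : |S' n m x| * (|Real.sin ((n m : ℝ) * x)| / (n m : ℝ)) ≤ 1 / (q - 1) := by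
        calc |S' n m x| * (|Real.sin ((n m : ℝ) * x)| / (n m : ℝ)) ≤
            ((n m : ℝ) / (q - 1)) * (1 / (n m : ℝ)) := by
              apply mul_le_mul h1 (div_le_div_of_nonneg_right h2 hm0.le) (by positivity) (by positivity)
          _ = 1 / (q - 1) := by field_simp
      have h4 : |(3 : ℝ)| = 3 := abs_of_pos (by norm_num)
      rw [h4]
      calc 3 * S n m x ^ 2 * |S' n m x| * (|Real.sin ((n m : ℝ) * x)| / (n m : ℝ)) =
          3 * S n m x ^ 2 * (|S' n m x| * (|Real.sin ((n m : ℝ) * x)| / (n m : ℝ))) := by ring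
        _ ≤ 3 * S n m x ^ 2 * (1 / (q - 1)) := mul_le_mul_of_nonneg_left h3 (by positivity)
        _ = 3 / (q - 1) * S n m x ^ 2 := by ring
    · apply Continuous.intervalIntegrable; fun_prop
  have h1 := hbd b
  have h2 := hbd a
  refine (abs_sub _ _).trans ?_
  refine add_le_add ?_ hint
  refine (abs_sub _ _).trans ?_
  have : 2 * (m : ℝ) ^ 3 / (n m : ℝ) = (m : ℝ) ^ 3 / (n m : ℝ) + (m : ℝ) ^ 3 / (n m : ℝ) := by ring
  rw [this]
  exact add_le_add h1 h2

theorem int_S_four {T : ℝ} (hT0 : 0 ≤ T) (hq : 1 < q) (hn : ∀ k, 0 < n k)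
    (hl : ∀ k, q * (n k : ℝ) ≤ (n (k + 1) : ℝ))
    (hT : ∀ m, ∑ j ∈ range m, ((j : ℝ) + 1) ^ 3 / (n j : ℝ) ≤ T) {a b : ℝ} (hab : a ≤ b) (m : ℕ) :
    ∫ x in a..b, S n m x ^ 4 ≤ 8 * T + (12 / (q - 1) + 8) * m *
      (m * ((b - a) / 2) + (1 + 4 * q / (q - 1)) * T) + 3 * m * (b - a) := by
  have hq1 : 0 < q - 1 := by linarith
  set E := (1 + 4 * q / (q - 1)) * T with hE
  have hE0 : 0 ≤ E := by positivity
  have hL : 0 ≤ b - a := by linarith
  have hstep : ∀ m : ℕ, ∫ x in a..b, S n m x ^ 4 ≤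
      8 * ∑ j ∈ range m, ((j : ℝ) + 1) ^ 3 / (n j : ℝ) +
      (12 / (q - 1) + 8) * m * (m * ((b - a) / 2) + E) + 3 * m * (b - a) := by
    intro m
    induction m with
    | zero => simp [S]
    | succ m ih =>
      have hm0 : (0 : ℝ) < n m := by exact_mod_cast hn m
      have hS := S_cont n m
      have h2 := int_S_cube hq hn hl hab m
      have h3 := abs_le.1 (int_S_sq hq hn hl hT a b m)
      rw [← hE] at h3
      set bm := ∫ x in a..b, S n m x ^ 2 with hbm
      have hpt : ∫ x in a..b, S n (m + 1) x ^ 4 ≤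
          ∫ x in a..b, (S n m x ^ 4 + 4 * (S n m x ^ 3 * Real.cos ((n m : ℝ) * x)) +
            8 * S n m x ^ 2 + 3) := by
        apply intervalIntegral.integral_mono hab
        · apply Continuous.intervalIntegrable; have := S_cont n (m + 1); fun_prop
        · apply Continuous.intervalIntegrable; fun_prop
        · intro x
          simp only [S_succ]
          set s := S n m x
          set c := Real.cos ((n m : ℝ) * x)
          have hc1 : c ^ 2 ≤ 1 := Real.cos_sq_le_one _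
          have hc2 : -1 ≤ c := Real.neg_one_le_cos _
          have hc3 : c ≤ 1 := Real.cos_le_one _
          have hc0 : 0 ≤ c ^ 2 := sq_nonneg c
          have e1 : 6 * s ^ 2 * c ^ 2 ≤ 6 * s ^ 2 := by nlinarith [sq_nonneg s]
          have e2 : 4 * s * c ^ 3 ≤ 2 * s ^ 2 + 2 := by
            have : 0 ≤ (s - c) ^ 2 := sq_nonneg _
            have h5 : 2 * s * c ≤ s ^ 2 + c ^ 2 := by nlinarith
            have h6 : 4 * s * c ^ 3 = 2 * (2 * s * c) * c ^ 2 := by ring
            rw [h6]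
            have h7 : 2 * (2 * s * c) * c ^ 2 ≤ 2 * (s ^ 2 + c ^ 2) * c ^ 2 := by nlinarith
            have h8 : 2 * (s ^ 2 + c ^ 2) * c ^ 2 ≤ 2 * (s ^ 2 + c ^ 2) * 1 := by
              apply mul_le_mul_of_nonneg_left hc1 (by positivity)
            linarith
          have e3 : c ^ 4 ≤ 1 := by
            have : c ^ 4 = (c ^ 2) ^ 2 := by ring
            rw [this]; nlinarith
          nlinarith
      have hsplit : ∫ x in a..b, (S n m x ^ 4 + 4 * (S n m x ^ 3 * Real.cos ((n m : ℝ) * x)) +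
            8 * S n m x ^ 2 + 3) = (∫ x in a..b, S n m x ^ 4) +
            4 * (∫ x in a..b, S n m x ^ 3 * Real.cos ((n m : ℝ) * x)) + 8 * bm + 3 * (b - a) := by
        rw [intervalIntegral.integral_add, intervalIntegral.integral_add,
          intervalIntegral.integral_add, intervalIntegral.integral_const_mul,
          intervalIntegral.integral_const_mul, intervalIntegral.integral_const, smul_eq_mul,
          mul_comm (b - a) 3]
        all_goals apply Continuous.intervalIntegrable; fun_prop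
      rw [hsplit] at hpt
      rw [Finset.sum_range_succ]
      have h4 := (abs_le.1 h2).2
      have h5 : 2 * (m : ℝ) ^ 3 / (n m : ℝ) ≤ 2 * (((m : ℝ) + 1) ^ 3 / (n m : ℝ)) := by
        rw [← mul_div_assoc]
        apply div_le_div_of_nonneg_right _ hm0.le
        have : (m : ℝ) ^ 3 ≤ ((m : ℝ) + 1) ^ 3 := pow_le_pow_left₀ (Nat.cast_nonneg _) (by linarith) 3
        linarith
      have h6 : bm ≤ m * ((b - a) / 2) + E := by linarith [h3.2]
      have h7 : (12 / (q - 1) + 8) * bm ≤ (12 / (q - 1) + 8) * (m * ((b - a) / 2) + E) :=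
        mul_le_mul_of_nonneg_left h6 (by positivity)
      push_cast
      have hm00 : (0 : ℝ) ≤ m := Nat.cast_nonneg m
      have h8 : (12 / (q - 1) + 8) * m * (m * ((b - a) / 2) + E) +
          (12 / (q - 1) + 8) * (m * ((b - a) / 2) + E) ≤
          (12 / (q - 1) + 8) * (m + 1) * ((m + 1) * ((b - a) / 2) + E) := by
        have h9 : (12 / (q - 1) + 8) * m * (m * ((b - a) / 2) + E) +
          (12 / (q - 1) + 8) * (m * ((b - a) / 2) + E) =
          (12 / (q - 1) + 8) * (m + 1) * (m * ((b - a) / 2) + E) := by ring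
        rw [h9]
        apply mul_le_mul_of_nonneg_left _ (by positivity)
        nlinarith
      have h10 : 4 * (3 / (q - 1) * bm) + 8 * bm = (12 / (q - 1) + 8) * bm := by ring
      linarith
  refine (hstep m).trans ?_
  have := hT m
  linarith

theorem pointwise1 (u s : ℝ) (hs : 0 < s) :
    3 / (2 * s) * u ^ 2 - 1 / (2 * s ^ 3) * u ^ 4 ≤ |u| := by
  have hv : ∀ v : ℝ, 0 ≤ v → 3 * v ^ 2 - v ^ 4 ≤ 2 * v := by
    intro v hv
    nlinarith [mul_nonneg hv (mul_nonneg (sq_nonneg (v - 1)) (by linarith : 0 ≤ v + 2))]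
  have h := hv (|u| / s) (by positivity)
  have h1 : (|u| / s) ^ 2 = u ^ 2 / s ^ 2 := by rw [div_pow, sq_abs]
  have h2 : (|u| / s) ^ 4 = u ^ 4 / s ^ 4 := by
    rw [div_pow]; congr 1
    have : |u| ^ 4 = (|u| ^ 2) ^ 2 := by ring
    rw [this, sq_abs]; ring
  rw [h1, h2] at h
  have h3 : 3 / (2 * s) * u ^ 2 - 1 / (2 * s ^ 3) * u ^ 4 = s / 2 * (3 * (u ^ 2 / s ^ 2) - u ^ 4 / s ^ 4) := by
    field_simp
  have h4 : |u| = s / 2 * (2 * (|u| / s)) := by field_simp
  rw [h3, h4]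
  exact mul_le_mul_of_nonneg_left h (by positivity)

theorem pointwise2 (u ξ l i : ℝ) (hl : 0 < l) (hi : (i = 0 ∧ ξ ≤ u) ∨ i = 1) :
    |u| ≤ u + 2 * |ξ| + l * u ^ 2 + l⁻¹ * i := by
  have hlu : 0 ≤ l * u ^ 2 := by positivity
  rcases hi with ⟨rfl, h⟩ | rfl
  · rw [mul_zero, add_zero]
    rcases le_or_gt 0 u with h0 | h0
    · rw [abs_of_nonneg h0]; linarith [abs_nonneg ξ]
    · rw [abs_of_neg h0]
      have : |ξ| = -ξ := abs_of_neg (by linarith)
      linarith
  · rw [mul_one]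
    have h1 : 2 * |u| ≤ l * u ^ 2 + l⁻¹ := by
      have h2 : 0 ≤ (l * |u| - 1) ^ 2 := sq_nonneg _
      have h3 : (l * |u| - 1) ^ 2 * l⁻¹ = l * u ^ 2 - 2 * |u| + l⁻¹ := by
        have : |u| ^ 2 = u ^ 2 := sq_abs u
        field_simp
        rw [← this]; ring
      have h4 : 0 ≤ (l * |u| - 1) ^ 2 * l⁻¹ := by positivity
      linarith
    have := neg_abs_le u
    linarith [abs_nonneg ξ]

theorem arith {D r L E T X v bm am : ℝ} (hD8 : 8 ≤ D) (hr1 : 1 ≤ r) (hL0 : 0 < L) (hE0 : 0 ≤ E)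
    (hT0 : 0 ≤ T)
    (hint : 3 / (2 * (D * r)) * bm - 1 / (2 * (D * r) ^ 3) * am ≤
        2 * T + X + (1 / (6 * D * r)) * bm + (1 / (6 * D * r))⁻¹ * v)
    (hb1 : r ^ 2 * (L / 2) - E ≤ bm) (hb2 : bm ≤ r ^ 2 * (L / 2) + E)
    (ha : am ≤ 8 * T + D * r ^ 2 * (r ^ 2 * (L / 2) + E) + 3 * r ^ 2 * L)
    (hvol : v ≤ (1 / (6 * D)) ^ 2 * L) :
    r * L * (15 / 32) ≤ D * (2 * T + X) + 2 * E + (8 * T + 3 * L) := by
  have hD0 : 0 < D := by linarith
  have hr0 : 0 < r := by linarith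
  have hX1 : r * L / 2 - E ≤ bm / r := by
    rw [le_div_iff₀ hr0]
    nlinarith
  have hY : am / r ^ 3 ≤ 8 * T + D * (r * L / 2 + E) + 3 * L := by
    rw [div_le_iff₀ (by positivity)]
    refine ha.trans ?_
    have hr3 : 1 ≤ r ^ 3 := one_le_pow₀ hr1
    have hr23 : r ^ 2 ≤ r ^ 3 := by nlinarith [sq_nonneg r]
    have e1 : 8 * T ≤ 8 * T * r ^ 3 := by nlinarith
    have e2 : D * r ^ 2 * (r ^ 2 * (L / 2) + E) ≤ D * (r * L / 2 + E) * r ^ 3 := by
      have : D * (r * L / 2 + E) * r ^ 3 - D * r ^ 2 * (r ^ 2 * (L / 2) + E) = D * E * (r ^ 3 - r ^ 2) := by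
        ring
      have h2 : 0 ≤ D * E * (r ^ 3 - r ^ 2) := mul_nonneg (by positivity) (by linarith)
      linarith
    have e3 : 3 * r ^ 2 * L ≤ 3 * L * r ^ 3 := by nlinarith
    linarith
  have h1 : 3 / (2 * (D * r)) * bm = 3 / 2 * (bm / r) / D := by field_simp
  have h2 : 1 / (2 * (D * r) ^ 3) * am = 1 / (2 * D ^ 2) * (am / r ^ 3) / D := by field_simp
  have h3 : (1 / (6 * D * r)) * bm = 1 / 6 * (bm / r) / D := by field_simp
  have h4 : (1 / (6 * D * r))⁻¹ * v ≤ r * L / 6 / D := by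
    rw [one_div, inv_inv]
    have : 6 * D * r * v ≤ 6 * D * r * ((1 / (6 * D)) ^ 2 * L) :=
      mul_le_mul_of_nonneg_left hvol (by positivity)
    refine this.trans (le_of_eq ?_)
    field_simp
  rw [h1, h2, h3] at hint
  have h5 : 3 / 2 * (bm / r) / D - 1 / (2 * D ^ 2) * (am / r ^ 3) / D ≤
      2 * T + X + 1 / 6 * (bm / r) / D + r * L / 6 / D := by linarith
  have h6 : 3 / 2 * (bm / r) - 1 / (2 * D ^ 2) * (am / r ^ 3) ≤
      D * (2 * T + X) + 1 / 6 * (bm / r) + r * L / 6 := by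
    have := mul_le_mul_of_nonneg_left h5 hD0.le
    have e1 : D * (3 / 2 * (bm / r) / D - 1 / (2 * D ^ 2) * (am / r ^ 3) / D) =
        3 / 2 * (bm / r) - 1 / (2 * D ^ 2) * (am / r ^ 3) := by
      rw [← sub_div, mul_div_cancel₀ _ hD0.ne']
    have e2 : D * (2 * T + X + 1 / 6 * (bm / r) / D + r * L / 6 / D) =
        D * (2 * T + X) + 1 / 6 * (bm / r) + r * L / 6 := by
      rw [mul_add, mul_add, mul_div_cancel₀ _ hD0.ne', mul_div_cancel₀ _ hD0.ne']
    rw [e1, e2] at this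
    exact this
  have h7 : 1 / (2 * D ^ 2) * (am / r ^ 3) ≤ 1 / 16 * (r * L / 2 + E) + (8 * T + 3 * L) := by
    have e1 : 1 / (2 * D ^ 2) * (am / r ^ 3) ≤ 1 / (2 * D ^ 2) * (8 * T + D * (r * L / 2 + E) + 3 * L) :=
      mul_le_mul_of_nonneg_left hY (by positivity)
    refine e1.trans ?_
    have e2 : 1 / (2 * D ^ 2) * (8 * T + D * (r * L / 2 + E) + 3 * L) =
        1 / (2 * D ^ 2) * (8 * T + 3 * L) + 1 / (2 * D) * (r * L / 2 + E) := by
      have e0 : 1 / (2 * D) = 1 / (2 * D ^ 2) * D := by field_simp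
      rw [e0]; ring
    rw [e2]
    have e3 : 1 / (2 * D ^ 2) ≤ 1 := by
      rw [div_le_one (by positivity)]; nlinarith
    have e4 : 1 / (2 * D) ≤ 1 / 16 := by
      apply one_div_le_one_div_of_le (by norm_num); linarith
    have e5 : 1 / (2 * D ^ 2) * (8 * T + 3 * L) ≤ 1 * (8 * T + 3 * L) :=
      mul_le_mul_of_nonneg_right e3 (by positivity)
    have e6 : 1 / (2 * D) * (r * L / 2 + E) ≤ 1 / 16 * (r * L / 2 + E) :=
      mul_le_mul_of_nonneg_right e4 (by positivity)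
    linarith
  linarith

theorem integrated {T : ℝ} (hn : ∀ k, 0 < n k)
    (hT : ∀ m, ∑ j ∈ Finset.range m, ((j : ℝ) + 1) ^ 3 / (n j : ℝ) ≤ T) {a b : ℝ} (hab : a < b)
    (F : Set ℝ) (hF : MeasurableSet F) (ξ σ : ℝ) (hσ : |σ| = 1) (m : ℕ)
    (hξ : ∀ x ∈ F, ξ ≤ σ * S n m x) (s l : ℝ) (hs : 0 < s) (hlam : 0 < l) :
    3 / (2 * s) * (∫ x in a..b, S n m x ^ 2) - 1 / (2 * s ^ 3) * (∫ x in a..b, S n m x ^ 4) ≤
        2 * T + 2 * |ξ| * (b - a) + l * (∫ x in a..b, S n m x ^ 2) +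
          l⁻¹ * volume.real (Set.Ioc a b ∩ Fᶜ) := by
  have hS := S_cont n m
  have hL1 : ∫ x in a..b, (3 / (2 * s) * S n m x ^ 2 - 1 / (2 * s ^ 3) * S n m x ^ 4) =
      3 / (2 * s) * (∫ x in a..b, S n m x ^ 2) - 1 / (2 * s ^ 3) * (∫ x in a..b, S n m x ^ 4) := by
    rw [intervalIntegral.integral_sub, intervalIntegral.integral_const_mul,
      intervalIntegral.integral_const_mul]
    all_goals (apply Continuous.intervalIntegrable; fun_prop)
  have hindi : IntervalIntegrable (Set.indicator Fᶜ (fun _ => (1 : ℝ))) volume a b := by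
    rw [intervalIntegrable_iff_integrableOn_Ioc_of_le hab.le]
    have h : IntegrableOn (fun _ : ℝ => (1 : ℝ)) (Set.Ioc a b) volume := by simp
    exact h.indicator hF.compl
  have hcont2 : IntervalIntegrable (fun x => σ * S n m x + 2 * |ξ| + l * S n m x ^ 2)
      volume a b := by apply Continuous.intervalIntegrable; fun_prop
  have hR : ∫ x in a..b, (σ * S n m x + 2 * |ξ| + l * S n m x ^ 2 +
      l⁻¹ * Set.indicator Fᶜ (fun _ => (1 : ℝ)) x) =
      σ * (∫ x in a..b, S n m x) + 2 * |ξ| * (b - a) + l * (∫ x in a..b, S n m x ^ 2) +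
        l⁻¹ * volume.real (Set.Ioc a b ∩ Fᶜ) := by
    rw [intervalIntegral.integral_add hcont2 (hindi.const_mul _),
      intervalIntegral.integral_const_mul]
    congr 1
    · have e1 : ∫ _ in a..b, 2 * |ξ| = 2 * |ξ| * (b - a) := by
        rw [intervalIntegral.integral_const, smul_eq_mul, mul_comm]
      have e2 : ∫ x in a..b, l * S n m x ^ 2 = l * ∫ x in a..b, S n m x ^ 2 :=
        intervalIntegral.integral_const_mul _ _
      have e3 : ∫ x in a..b, σ * S n m x = σ * ∫ x in a..b, S n m x :=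
        intervalIntegral.integral_const_mul _ _
      rw [intervalIntegral.integral_add, intervalIntegral.integral_add, e1, e2, e3]
      all_goals (apply Continuous.intervalIntegrable; fun_prop)
    · congr 1
      rw [intervalIntegral.integral_of_le hab.le, integral_indicator_const (1 : ℝ) hF.compl,
        smul_eq_mul, mul_one, Measure.real, Measure.restrict_apply hF.compl, Measure.real,
        Set.inter_comm]
  have hmono := intervalIntegral.integral_mono_on (a := a) (b := b) (μ := volume) hab.le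
    (f := fun x => 3 / (2 * s) * S n m x ^ 2 - 1 / (2 * s ^ 3) * S n m x ^ 4)
    (g := fun x => σ * S n m x + 2 * |ξ| + l * S n m x ^ 2 +
      l⁻¹ * Set.indicator Fᶜ (fun _ => (1 : ℝ)) x)
    (by apply Continuous.intervalIntegrable; fun_prop)
    (hcont2.add (hindi.const_mul _))
    (by
      intro x _
      refine (pointwise1 (S n m x) s hs).trans ?_
      have habs : |S n m x| = |σ * S n m x| := by rw [abs_mul, hσ, one_mul]
      have hsq : S n m x ^ 2 = (σ * S n m x) ^ 2 := by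
        rw [mul_pow, ← sq_abs σ, hσ, one_pow, one_mul]
      rw [habs, hsq]
      apply pointwise2 _ _ _ _ hlam
      by_cases hx : x ∈ F
      · left
        exact ⟨by simp [hx], hξ x hx⟩
      · right
        simp [hx])
  rw [hL1, hR] at hmono
  have h2 : |σ * ∫ x in a..b, S n m x| ≤ 2 * T := by
    rw [abs_mul, hσ, one_mul]; exact int_S hn hT a b m
  have := (abs_le.1 h2).2
  linarith

theorem key {T : ℝ} (hT0 : 0 ≤ T) (hq : 1 < q) (hn : ∀ k, 0 < n k)
    (hl : ∀ k, q * (n k : ℝ) ≤ (n (k + 1) : ℝ))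
    (hT : ∀ m, ∑ j ∈ Finset.range m, ((j : ℝ) + 1) ^ 3 / (n j : ℝ) ≤ T) {a b : ℝ} (hab : a < b)
    (F : Set ℝ) (hF : MeasurableSet F) (ξ σ : ℝ) (hσ : |σ| = 1) (M : ℕ)
    (hξ : ∀ x ∈ F, ∀ m ≥ M, ξ ≤ σ * S n m x)
    (hvol : volume.real (Set.Ioc a b ∩ Fᶜ) ≤ (1 / (6 * (12 / (q - 1) + 8))) ^ 2 * (b - a)) : False := by
  have hq1 : 0 < q - 1 := by linarith
  obtain ⟨D, hD⟩ : ∃ D, D = 12 / (q - 1) + 8 := ⟨_, rfl⟩
  have hD8 : 8 ≤ D := by
    rw [hD]
    have : 0 < 12 / (q - 1) := by positivity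
    linarith
  have hD0 : 0 < D := by linarith
  obtain ⟨L, hL⟩ : ∃ L, L = b - a := ⟨_, rfl⟩
  have hL0 : 0 < L := by rw [hL]; linarith
  obtain ⟨E, hE⟩ : ∃ E, E = (1 + 4 * q / (q - 1)) * T := ⟨_, rfl⟩
  have hE0 : 0 ≤ E := by rw [hE]; positivity
  have hmain : ∀ m : ℕ, M ≤ m → 1 ≤ m →
      √(m : ℝ) * L * (15 / 32) ≤ D * (2 * T + 2 * |ξ| * L) + 2 * E + (8 * T + 3 * L) := by
    intro m hm hm1
    have hm1' : (1 : ℝ) ≤ m := by exact_mod_cast hm1
    have hr1 : 1 ≤ √(m : ℝ) := Real.one_le_sqrt.2 hm1'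
    have hr2 : √(m : ℝ) ^ 2 = m := Real.sq_sqrt (by linarith)
    have hr0 : 0 < √(m : ℝ) := by linarith
    have h1 := integrated hn hT hab F hF ξ σ hσ m (fun x hx => hξ x hx m hm) (D * √(m : ℝ))
      (1 / (6 * D * √(m : ℝ))) (by positivity) (by positivity)
    have hb := abs_le.1 (int_S_sq hq hn hl hT a b m)
    have ha := int_S_four hT0 hq hn hl hT hab.le m
    rw [← hE, ← hL] at hb ha
    rw [← hD] at ha
    rw [← hL] at h1
    refine arith hD8 hr1 hL0 hE0 hT0 h1 ?_ ?_ ?_ ?_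
    · rw [hr2]; linarith [hb.1]
    · rw [hr2]; linarith [hb.2]
    · rw [hr2]; linarith
    · rw [hD, hL]; exact hvol
  obtain ⟨K, hK⟩ : ∃ K, K = D * (2 * T + 2 * |ξ| * L) + 2 * E + (8 * T + 3 * L) := ⟨_, rfl⟩
  have hK0 : 0 ≤ K := by rw [hK]; positivity
  obtain ⟨m0, hm0⟩ := exists_nat_gt ((K / (L * (15 / 32))) ^ 2)
  have h1 := hmain (max (max M 1) m0) (by omega) (by omega)
  rw [← hK] at h1
  have h2 : K / (L * (15 / 32)) < √((max (max M 1) m0 : ℕ) : ℝ) := by
    rw [Real.lt_sqrt (by positivity)]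
    refine hm0.trans_le ?_
    exact_mod_cast le_max_right _ _
  rw [div_lt_iff₀ (by positivity)] at h2
  linarith

/-- a set of positive measure almost fills some small interval -/
theorem exists_interval (F : Set ℝ) (hF : MeasurableSet F) (hpos : volume F ≠ 0) (η : ℝ)
    (hη : 0 < η) (hη1 : η < 1) :
    ∃ a b : ℝ, a < b ∧ volume.real (Set.Ioc a b ∩ Fᶜ) ≤ η * (b - a) := by
  have hne : (ae (volume.restrict F)).NeBot := by
    rw [MeasureTheory.ae_neBot]
    intro h
    apply hpos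
    rw [← Measure.restrict_apply_self, h]
    simp
  obtain ⟨x, hx⟩ := (Besicovitch.ae_tendsto_measure_inter_div volume F).exists
  have h1 : ∀ᶠ r in 𝓝[>] (0 : ℝ), ENNReal.ofReal (1 - η) <
      volume (F ∩ Metric.closedBall x r) / volume (Metric.closedBall x r) := by
    apply hx.eventually_const_lt
    rw [← ENNReal.ofReal_one]
    exact (ENNReal.ofReal_lt_ofReal_iff (by norm_num)).2 (by linarith)
  obtain ⟨r, hr1, hr2⟩ := (h1.and self_mem_nhdsWithin).exists
  have hr0 : (0 : ℝ) < r := hr2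
  refine ⟨x - r, x + r, by linarith, ?_⟩
  rw [Real.volume_closedBall] at hr1
  have h2 : ENNReal.ofReal (1 - η) * ENNReal.ofReal (2 * r) ≤ volume (F ∩ Metric.closedBall x r) := by
    rw [ENNReal.lt_div_iff_mul_lt (Or.inl (by simp; linarith)) (Or.inl ENNReal.ofReal_ne_top)] at hr1
    exact hr1.le
  rw [← ENNReal.ofReal_mul (by linarith), Real.closedBall_eq_Icc] at h2
  have h3 : volume.real (F ∩ Set.Icc (x - r) (x + r)) ≥ (1 - η) * (2 * r) := by
    rw [Measure.real, ge_iff_le, ← ENNReal.ofReal_le_iff_le_toReal]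
    · exact h2
    · refine ne_top_of_le_ne_top ?_ (measure_mono Set.inter_subset_right)
      simp
  have h4 : volume.real (Set.Icc (x - r) (x + r) ∩ F) + volume.real (Set.Icc (x - r) (x + r) \ F) =
      volume.real (Set.Icc (x - r) (x + r)) := measureReal_inter_add_sdiff hF (by simp)
  have h5 : volume.real (Set.Icc (x - r) (x + r)) = 2 * r := by
    rw [Real.volume_real_Icc_of_le (by linarith)]; ring
  have h6 : volume.real (Set.Ioc (x - r) (x + r) ∩ Fᶜ) ≤ volume.real (Set.Icc (x - r) (x + r) \ F) := by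
    apply measureReal_mono
    · intro y hy
      exact ⟨Set.Ioc_subset_Icc_self hy.1, hy.2⟩
    · refine ne_top_of_le_ne_top ?_ (measure_mono Set.sdiff_subset)
      simp
  rw [Set.inter_comm, h5] at h4
  linarith

theorem not_bounded_below (hq : 1 < q) (hn : ∀ k, 0 < n k)
    (hl : ∀ k, q * (n k : ℝ) ≤ (n (k + 1) : ℝ)) (ξ σ : ℝ) (hσ : |σ| = 1) (M : ℕ) :
    volume {x : ℝ | ∀ m ≥ M, ξ ≤ σ * S n m x} = 0 := by
  by_contra hpos
  have hq1 : 0 < q - 1 := by linarith
  have hF : MeasurableSet {x : ℝ | ∀ m ≥ M, ξ ≤ σ * S n m x} := by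
    have : {x : ℝ | ∀ m ≥ M, ξ ≤ σ * S n m x} = ⋂ m ≥ M, {x | ξ ≤ σ * S n m x} := by
      ext x; simp
    rw [this]
    exact (isClosed_biInter fun m _ =>
      isClosed_le continuous_const (continuous_const.mul (S_cont n m))).measurableSet
  obtain ⟨T, hT0, hT⟩ := exists_T hq hn hl
  have hη1 : (1 / (6 * (12 / (q - 1) + 8))) ^ 2 < 1 := by
    have : 1 / (6 * (12 / (q - 1) + 8)) < 1 := by
      rw [div_lt_one (by positivity)]
      have : 0 < 12 / (q - 1) := by positivity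
      linarith
    exact pow_lt_one₀ (by positivity) this (by norm_num)
  obtain ⟨a, b, hab, hvol⟩ := exists_interval _ hF hpos ((1 / (6 * (12 / (q - 1) + 8))) ^ 2)
    (by positivity) hη1
  exact key hT0 hq hn hl hT hab _ hF ξ σ hσ M (fun x hx => hx) hvol

/-- a point where the bad set is not dense -/
theorem not_density {r ρ : ℝ} (hρ : 0 < ρ) (Bad : Set ℝ) (x z : ℝ)
    (hsub : Metric.ball z ρ ⊆ Metric.closedBall x r) (hdisj : Disjoint (Metric.ball z ρ) Bad) :
    volume (Bad ∩ Metric.closedBall x r) / volume (Metric.closedBall x r) ≤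
      ENNReal.ofReal (1 - ρ / r) := by
  have hr : ρ ≤ r := by
    have := measure_mono (μ := volume) hsub
    rw [Real.volume_ball, Real.volume_closedBall] at this
    by_contra hcon
    push Not at hcon
    have h2 := (ENNReal.ofReal_lt_ofReal_iff (by linarith : 0 < 2 * ρ)).2 (by linarith : 2 * r < 2 * ρ)
    exact absurd this (not_le.2 h2)
  have hr0 : 0 < r := by linarith
  have h1 : volume (Bad ∩ Metric.closedBall x r) ≤ ENNReal.ofReal (2 * r - 2 * ρ) := by
    have h2 : volume (Bad ∩ Metric.closedBall x r) ≤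
        volume (Metric.closedBall x r \ Metric.ball z ρ) := by
      apply measure_mono
      intro y hy
      exact ⟨hy.2, fun h => Set.disjoint_left.1 hdisj h hy.1⟩
    refine h2.trans ?_
    rw [measure_sdiff hsub measurableSet_ball.nullMeasurableSet
      (by rw [Real.volume_ball]; exact ENNReal.ofReal_ne_top), Real.volume_closedBall,
      Real.volume_ball, ENNReal.ofReal_sub _ (by linarith)]
  calc volume (Bad ∩ Metric.closedBall x r) / volume (Metric.closedBall x r) ≤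
      ENNReal.ofReal (2 * r - 2 * ρ) / ENNReal.ofReal (2 * r) := by
        rw [Real.volume_closedBall]
        exact ENNReal.div_le_div_right h1 _
    _ = ENNReal.ofReal (1 - ρ / r) := by
        rw [← ENNReal.ofReal_div_of_pos (by linarith)]
        congr 1
        field_simp

theorem S_lip (hq : 1 < q) (hn : ∀ k, 0 < n k)
    (hl : ∀ k, q * (n k : ℝ) ≤ (n (k + 1) : ℝ)) {m m' : ℕ} (h : m' ≤ m + 1) (w z : ℝ) :
    |S n m' w - S n m' z| ≤ (n m : ℝ) * (q / (q - 1)) * |w - z| := by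
  have hq1 : 0 < q - 1 := by linarith
  unfold S
  rw [← Finset.sum_sub_distrib]
  refine (Finset.abs_sum_le_sum_abs _ _).trans ?_
  have h1 : ∀ k ∈ Finset.range m', |Real.cos ((n k : ℝ) * w) - Real.cos ((n k : ℝ) * z)| ≤
      (n k : ℝ) * |w - z| := by
    intro k _
    have h2 : |Real.cos ((n k : ℝ) * w) - Real.cos ((n k : ℝ) * z)| ≤
        |(n k : ℝ) * w - (n k : ℝ) * z| := by
      have := Real.abs_cos_sub_cos_le ((n k : ℝ) * w) ((n k : ℝ) * z)
      exact this
    refine h2.trans (le_of_eq ?_)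
    rw [← mul_sub, abs_mul, abs_of_nonneg (Nat.cast_nonneg _)]
  refine (Finset.sum_le_sum h1).trans ?_
  rw [← Finset.sum_mul]
  apply mul_le_mul_of_nonneg_right _ (abs_nonneg _)
  have h3 : ∑ k ∈ Finset.range m', (n k : ℝ) ≤ ∑ k ∈ Finset.range (m + 1), (n k : ℝ) :=
    Finset.sum_le_sum_of_subset_of_nonneg (Finset.range_mono h) fun _ _ _ => Nat.cast_nonneg _
  refine h3.trans ?_
  rw [Finset.sum_range_succ]
  have h4 := sum_le hq hn hl m
  have h5 : (n m : ℝ) * (q / (q - 1)) = (n m : ℝ) / (q - 1) + n m := by field_simp; ring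
  rw [h5]
  linarith

theorem ae_close (hq : 1 < q) (hn : ∀ k, 0 < n k)
    (hl : ∀ k, q * (n k : ℝ) ≤ (n (k + 1) : ℝ)) (ξ ε : ℝ) (hε : 0 < ε) (M : ℕ) :
    volume {x : ℝ | ∀ m ≥ M, ε ≤ |S n m x - ξ|} = 0 := by
  by_contra hpos
  have hq1 : 0 < q - 1 := by linarith
  set Bad := {x : ℝ | ∀ m ≥ M, ε ≤ |S n m x - ξ|} with hBad
  have hmeas : MeasurableSet Bad := by
    have : Bad = ⋂ m ≥ M, {x | ε ≤ |S n m x - ξ|} := by
      ext x; simp [hBad]
    rw [this]
    exact (isClosed_biInter fun m _ =>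
      isClosed_le continuous_const (((S_cont n m).sub continuous_const).abs)).measurableSet
  have hlow : ∀ᵐ x ∂(volume : Measure ℝ), ∀ N : ℕ, ¬ ∀ m ≥ N, ξ ≤ S n m x := by
    rw [ae_all_iff]
    intro N
    have := not_bounded_below hq hn hl ξ 1 (by simp) N
    simp only [one_mul] at this
    rw [ae_iff]
    simpa using this
  have hup : ∀ᵐ x ∂(volume : Measure ℝ), ∀ N : ℕ, ¬ ∀ m ≥ N, S n m x ≤ ξ := by
    rw [ae_all_iff]
    intro N
    have := not_bounded_below hq hn hl (-ξ) (-1) (by simp) N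
    have h2 : {x : ℝ | ∀ m ≥ N, -ξ ≤ -1 * S n m x} = {x : ℝ | ∀ m ≥ N, S n m x ≤ ξ} := by
      ext x
      simp only [Set.mem_setOf_eq]
      constructor
      · intro h m hm; have := h m hm; linarith
      · intro h m hm; have := h m hm; linarith
    rw [h2] at this
    rw [ae_iff]
    simpa using this
  have hne : (ae (volume.restrict Bad)).NeBot := by
    rw [MeasureTheory.ae_neBot]
    intro h
    apply hpos
    rw [← Measure.restrict_apply_self, h]
    simp
  obtain ⟨x, ⟨⟨hx1, hx2⟩, hx3⟩, hx4⟩ := (((ae_restrict_of_ae hlow).and (ae_restrict_of_ae hup)).and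
    (ae_restrict_mem hmeas)).and (Besicovitch.ae_tendsto_measure_inter_div volume Bad) |>.exists
  -- constants
  obtain ⟨c, hc⟩ : ∃ c : ℝ, c = q / (q - 1) := ⟨_, rfl⟩
  have hc0 : 0 < c := by rw [hc]; positivity
  have hπ := Real.pi_pos
  obtain ⟨θ, hθ⟩ : ∃ θ : ℝ, θ = (ε / c) / (2 * Real.pi + ε / c) := ⟨_, rfl⟩
  have hθ0 : 0 < θ := by rw [hθ]; positivity
  have h1 : ∀ᶠ r in 𝓝[>] (0 : ℝ), ENNReal.ofReal (1 - θ) <
      volume (Bad ∩ Metric.closedBall x r) / volume (Metric.closedBall x r) := by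
    apply hx4.eventually_const_lt
    rw [← ENNReal.ofReal_one]
    exact (ENNReal.ofReal_lt_ofReal_iff (by norm_num)).2 (by linarith)
  obtain ⟨δ, hδ0, hδ⟩ := mem_nhdsGT_iff_exists_Ioo_subset.1 h1
  have hδ0' : (0 : ℝ) < δ := hδ0
  obtain ⟨N, hN⟩ := pow_unbounded_of_one_lt ((2 * Real.pi + ε / c) / δ) hq
  -- crossing after max M N
  have hcross : ∃ m ≥ max M N, ξ < S n m x ∧ S n (m + 1) x < ξ := by
    have h2 := hx2 (max M N)
    push Not at h2
    obtain ⟨m1, hm1, hm1'⟩ := h2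
    have h3 := hx1 m1
    push Not at h3
    have h3' : ∃ j, m1 ≤ j ∧ S n j x < ξ := by
      obtain ⟨j, hj, hj'⟩ := h3
      exact ⟨j, hj, hj'⟩
    classical
    have hf := Nat.find_spec h3'
    set j0 := Nat.find h3' with hj0
    have hj0ne : j0 ≠ m1 := by
      intro h
      rw [h] at hf
      linarith [hf.2]
    obtain ⟨m, hm⟩ : ∃ m, j0 = m + 1 := ⟨j0 - 1, by omega⟩
    refine ⟨m, by omega, ?_, by rw [← hm]; exact hf.2⟩
    have hmin := Nat.find_min h3' (m := m) (by omega)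
    push Not at hmin
    have h4 := hmin (by omega)
    have h5 := hx3 m (by omega)
    rcases h4.eq_or_lt with h6 | h6
    · rw [← h6, sub_self, abs_zero] at h5; linarith
    · exact h6
  obtain ⟨m, hm, hSm, hSm1⟩ := hcross
  have hnm : (0 : ℝ) < n m := by exact_mod_cast hn m
  -- the point y
  set j := ⌈(n m : ℝ) * x / (2 * Real.pi)⌉ with hj
  set y : ℝ := 2 * Real.pi * j / (n m : ℝ) with hy
  have hy1 : x ≤ y := by
    rw [hy, le_div_iff₀ hnm]
    have := Int.le_ceil ((n m : ℝ) * x / (2 * Real.pi))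
    rw [← hj, div_le_iff₀ (by positivity)] at this
    linarith
  have hy2 : y ≤ x + 2 * Real.pi / (n m : ℝ) := by
    rw [hy, div_le_iff₀ hnm, add_mul, div_mul_cancel₀ _ hnm.ne']
    have := (Int.ceil_lt_add_one ((n m : ℝ) * x / (2 * Real.pi))).le
    rw [← hj] at this
    have h2 : 2 * Real.pi * (j : ℝ) ≤ 2 * Real.pi * ((n m : ℝ) * x / (2 * Real.pi) + 1) :=
      mul_le_mul_of_nonneg_left this (by positivity)
    have h3 : 2 * Real.pi * ((n m : ℝ) * x / (2 * Real.pi) + 1) = (n m : ℝ) * x + 2 * Real.pi := by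
      field_simp
    linarith
  have hcosy : Real.cos ((n m : ℝ) * y) = 1 := by
    have : (n m : ℝ) * y = (j : ℝ) * (2 * Real.pi) := by rw [hy]; field_simp
    rw [this]
    exact Real.cos_int_mul_two_pi j
  -- the zero
  have hzero : ∃ z ∈ Set.Icc x y, ∃ m', M ≤ m' ∧ m' ≤ m + 1 ∧ S n m' z = ξ := by
    by_cases h : ∃ w ∈ Set.Icc x y, S n m w ≤ ξ
    · obtain ⟨w, hw, hw'⟩ := h
      obtain ⟨z, hz, hz'⟩ := intermediate_value_Icc' hw.1 (S_cont n m).continuousOn ⟨hw', hSm.le⟩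
      exact ⟨z, ⟨hz.1, hz.2.trans hw.2⟩, m, by omega, by omega, hz'⟩
    · push Not at h
      have h2 := h y ⟨hy1, le_refl _⟩
      have h3 : ξ ≤ S n (m + 1) y := by rw [S_succ, hcosy]; linarith
      obtain ⟨z, hz, hz'⟩ := intermediate_value_Icc hy1 (S_cont n (m + 1)).continuousOn ⟨hSm1.le, h3⟩
      exact ⟨z, hz, m + 1, by omega, le_rfl, hz'⟩
  obtain ⟨z, hz, m', hm'1, hm'2, hSz⟩ := hzero
  -- ball around z free of Bad
  have hρ0 : 0 < ε / c / (n m : ℝ) := by positivity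
  have hdisj : Disjoint (Metric.ball z (ε / c / (n m : ℝ))) Bad := by
    rw [Set.disjoint_left]
    intro w hw hwB
    have h2 := hwB m' hm'1
    have h3 := S_lip hq hn hl hm'2 w z
    rw [hSz, ← hc] at h3
    rw [Metric.mem_ball, Real.dist_eq, lt_div_iff₀ hnm, lt_div_iff₀ hc0] at hw
    have : (n m : ℝ) * c * |w - z| = |w - z| * (n m : ℝ) * c := by ring
    rw [this] at h3
    linarith
  have hsub : Metric.ball z (ε / c / (n m : ℝ)) ⊆
      Metric.closedBall x ((2 * Real.pi + ε / c) / (n m : ℝ)) := by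
    intro w hw
    rw [Metric.mem_ball, Real.dist_eq, abs_lt] at hw
    rw [Metric.mem_closedBall, Real.dist_eq, abs_le, add_div]
    have h2 : 0 < 2 * Real.pi / (n m : ℝ) := by positivity
    constructor
    · linarith [hz.1, hw.1]
    · linarith [hz.2, hw.2]
  have hnd := not_density hρ0 Bad x z hsub hdisj
  have hratio : ε / c / (n m : ℝ) / ((2 * Real.pi + ε / c) / (n m : ℝ)) = θ := by
    rw [hθ]; field_simp
  rw [hratio] at hnd
  have hr : (2 * Real.pi + ε / c) / (n m : ℝ) ∈ Set.Ioo (0 : ℝ) δ := by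
    refine ⟨by positivity, ?_⟩
    rw [div_lt_iff₀ hδ0'] at hN
    rw [div_lt_iff₀ hnm]
    have h2 : q ^ N ≤ (n m : ℝ) :=
      (pow_le_pow_right₀ hq.le (by omega : N ≤ m)).trans (pow_le hq hn hl m)
    nlinarith
  exact absurd hnd (not_le.2 (hδ hr))

theorem main (hq : 1 < q) (hn : ∀ k, 0 < n k)
    (hl : ∀ k, q * (n k : ℝ) ≤ (n (k + 1) : ℝ)) :
    ∀ᵐ x ∂(volume : Measure ℝ), ∀ ξ : ℝ, ∀ ε : ℝ, 0 < ε → ∃ᶠ m in Filter.atTop,
      |S n m x - ξ| < ε := by
  have h1 : ∀ᵐ x ∂(volume : Measure ℝ), ∀ ξ : ℚ, ∀ i : ℕ, ∀ M : ℕ,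
      ¬ ∀ m ≥ M, 1 / ((i : ℝ) + 1) ≤ |S n m x - ξ| := by
    rw [ae_all_iff]; intro ξ
    rw [ae_all_iff]; intro i
    rw [ae_all_iff]; intro M
    have := ae_close hq hn hl (ξ : ℝ) (1 / ((i : ℝ) + 1)) (by positivity) M
    rw [ae_iff]
    simpa using this
  filter_upwards [h1] with x hx
  intro ξ ε hε
  obtain ⟨i, hi⟩ := exists_nat_one_div_lt (by positivity : 0 < ε / 2)
  obtain ⟨ξ', hξ'1, hξ'2⟩ := exists_rat_btwn (by linarith : ξ - ε / 2 < ξ)
  rw [Filter.frequently_atTop]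
  intro M
  have h2 := hx ξ' i M
  push Not at h2
  obtain ⟨m, hm, hm'⟩ := h2
  refine ⟨m, hm, ?_⟩
  have h3 : |(ξ' : ℝ) - ξ| < ε / 2 := by rw [abs_lt]; constructor <;> linarith
  calc |S n m x - ξ| = |(S n m x - ξ') + (ξ' - ξ)| := by ring_nf
    _ ≤ |S n m x - ξ'| + |(ξ' : ℝ) - ξ| := abs_add_le _ _
    _ < ε := by linarith

end Pool.Agent.V1175.LacDense
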