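import Mathlib

set_option autoImplicit false

namespace Pool.Agent.V1175.FatPol

open Finset MeasureTheory Filter Topology
open scoped ENNReal

section Upper

/-- tangent line inequality for `v ↦ v^{-s}` -/
theorem tangent {s v w : ℝ} (hs : 0 < s) (hv : 0 < v) (hw : 0 < w) :
    v ^ (-s) + (-s * v ^ (-s - 1)) * (w - v) ≤ w ^ (-s) := by
  have h1 : 1 - s * (w / v - 1) ≤ (w / v) ^ (-s) := by
    have hwv : 0 < w / v := by positivity
    rw [Real.rpow_def_of_pos hwv]
    have h2 : Real.log (w / v) ≤ w / v - 1 := Real.log_le_sub_one_of_pos hwv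
    have h3 := Real.add_one_le_exp (Real.log (w / v) * -s)
    nlinarith
  have h4 : w ^ (-s) = v ^ (-s) * (w / v) ^ (-s) := by
    rw [← Real.mul_rpow hv.le (by positivity), mul_div_cancel₀ _ hv.ne']
  have h5 : v ^ (-s - 1) = v ^ (-s) / v := by
    rw [Real.rpow_sub_one hv.ne']
  rw [h4, h5]
  have h6 : 0 < v ^ (-s) := Real.rpow_pos_of_pos hv _
  have h7 : v ^ (-s) + -s * (v ^ (-s) / v) * (w - v) = v ^ (-s) * (1 - s * (w / v - 1)) := by
    field_simp
    ring
  rw [h7]
  exact mul_le_mul_of_nonneg_left h1 h6.le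

/-- the symmetric convex potential on `(0, lam)` -/
noncomputable def G (s lam v : ℝ) : ℝ := v ^ (-s) + (lam - v) ^ (-s)

noncomputable def G' (s lam v : ℝ) : ℝ := -s * v ^ (-s - 1) + s * (lam - v) ^ (-s - 1)

theorem G_tangent {s lam v w : ℝ} (hs : 0 < s) (hv : 0 < v) (hv' : v < lam) (hw : 0 < w) (hw' : w < lam) :
    G s lam v + G' s lam v * (w - v) ≤ G s lam w := by
  unfold G G'
  have h1 := tangent hs hv hw
  have h2 := tangent hs (sub_pos.2 hv') (sub_pos.2 hw')
  have h3 : (lam - w) - (lam - v) = -(w - v) := by ring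
  rw [h3] at h2
  linarith

theorem G'_mono {s lam v w : ℝ} (hs : 0 < s) (hv : 0 < v) (hvw : v ≤ w) (hw' : w < lam) :
    G' s lam v ≤ G' s lam w := by
  unfold G'
  have h1 : w ^ (-s - 1) ≤ v ^ (-s - 1) := Real.rpow_le_rpow_of_nonpos hv hvw (by linarith)
  have h2 : (lam - v) ^ (-s - 1) ≤ (lam - w) ^ (-s - 1) :=
    Real.rpow_le_rpow_of_nonpos (by linarith) (by linarith) (by linarith)
  nlinarith

theorem abel (c δ : ℕ → ℝ) (m : ℕ) (hc : ∀ i, i < m → c i ≤ c (i + 1)) (hδ : ∀ i, 0 ≤ δ i) :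
    ∑ i ∈ range (m + 1), c i * (δ (i + 1) - δ i) ≤ c m * δ (m + 1) - c 0 * δ 0 := by
  induction m with
  | zero => simp; ring_nf; rfl
  | succ m ih =>
    rw [Finset.sum_range_succ]
    have h1 := ih (fun i hi => hc i (by omega))
    have h2 := hc m (by omega)
    have h3 := hδ (m + 1)
    nlinarith

/-- abstract form: for a nondecreasing sequence `x` with `x_{k+N} = x_k + lam` there is a point `t`
whose distances to `x_j, …, x_{j+N-1}` are in `(0, lam)` and with small potential. -/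
theorem circle_seq {s lam : ℝ} (hs : 0 < s) (hlam : 0 < lam) (n : ℕ) (x : ℕ → ℝ) (hx : Monotone x)
    (hper : ∀ k, x (k + (n + 1)) = x k + lam) :
    ∃ j < n + 1, ∃ t : ℝ, (∀ i < n + 1, 0 < x (j + i) - t ∧ x (j + i) - t < lam) ∧
      ∑ i ∈ range (n + 1), G s lam (x (j + i) - t) ≤
        2 * ∑ i ∈ range (n + 1), (((i : ℝ) + 1 / 2) * (lam / (n + 1))) ^ (-s) := by
  set N : ℝ := (n : ℝ) + 1 with hN
  have hN0 : 0 < N := by positivity
  let y : ℕ → ℝ := fun k => x k - k * (lam / N)
  have hy : ∀ k, y (k + (n + 1)) = y k := by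
    intro k
    simp only [y]
    rw [hper]
    push_cast
    rw [← hN]
    field_simp
    ring
  let c : ℝ := (∑ k ∈ range (n + 1), y k) / N
  let e : ℕ → ℝ := fun m => ∑ k ∈ range m, (y k - c)
  have he0 : e 0 = 0 := by simp [e]
  have heN : e (n + 1) = 0 := by
    simp only [e]
    rw [Finset.sum_sub_distrib, Finset.sum_const, Finset.card_range, nsmul_eq_mul]
    push_cast
    rw [← hN]
    simp only [c]
    field_simp
    ring
  have hesucc : ∀ m, e (m + 1) = e m + (y m - c) := by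
    intro m; simp only [e]; rw [Finset.sum_range_succ]
  have heper : ∀ m, e (m + (n + 1)) = e m := by
    intro m
    induction m with
    | zero => rw [zero_add, heN, he0]
    | succ m ih =>
      have : m + 1 + (n + 1) = (m + (n + 1)) + 1 := by ring
      rw [this, hesucc, ih, hy, hesucc]
  obtain ⟨j, hj, hjmin⟩ := Finset.exists_min_image (range (n + 1)) e ⟨0, by simp⟩
  rw [Finset.mem_range] at hj
  have hmin : ∀ m, e j ≤ e m := by
    intro m
    induction m using Nat.strong_induction_on with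
    | _ m ih =>
      by_cases hm : m < n + 1
      · exact hjmin m (Finset.mem_range.2 hm)
      · have := ih (m - (n + 1)) (by omega)
        rw [← heper (m - (n + 1))] at this
        rwa [Nat.sub_add_cancel (by omega)] at this
  let t : ℝ := j * (lam / N) + c - 1 / 2 * (lam / N)
  have hu : ∀ i : ℕ, x (j + i) - t = ((i : ℝ) + 1 / 2) * (lam / N) + (y (j + i) - c) := by
    intro i
    simp only [y, t]
    push_cast
    ring
  have hstep : 0 < lam / N := by positivity
  have hfirst : 0 < x (j + 0) - t := by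
    rw [hu]
    have := hmin (j + 1)
    rw [hesucc] at this
    have : 0 ≤ y (j + 0) - c := by rw [add_zero]; linarith
    have h2 : 0 < (((0 : ℕ) : ℝ) + 1 / 2) * (lam / N) := by positivity
    linarith
  have hlast : x (j + n) - t < lam := by
    rw [hu]
    have h1 := hmin (j + n)
    have h2 : e (j + n + 1) = e j := by
      rw [show j + n + 1 = j + (n + 1) by ring, heper]
    rw [hesucc] at h2
    have h3 : y (j + n) - c ≤ 0 := by linarith
    have h4 : ((n : ℝ) + 1 / 2) * (lam / N) < lam := by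
      have : ((n : ℝ) + 1 / 2) * (lam / N) = lam * (((n : ℝ) + 1 / 2) / N) := by ring
      rw [this]
      have h5 : ((n : ℝ) + 1 / 2) / N < 1 := by
        rw [div_lt_one hN0, hN]; linarith
      nlinarith
    linarith
  have hrange : ∀ i < n + 1, 0 < x (j + i) - t ∧ x (j + i) - t < lam := by
    intro i hi
    constructor
    · have := hx (show j + 0 ≤ j + i by omega)
      linarith
    · have := hx (show j + i ≤ j + n by omega)
      linarith
  refine ⟨j, hj, t, hrange, ?_⟩
  -- comparison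
  have hu' : ∀ i < n + 1, 0 < ((i : ℝ) + 1 / 2) * (lam / N) ∧ ((i : ℝ) + 1 / 2) * (lam / N) < lam := by
    intro i hi
    refine ⟨by positivity, ?_⟩
    have h1 : (i : ℝ) + 1 / 2 < N := by
      have : (i : ℝ) ≤ n := by exact_mod_cast (by omega : i ≤ n)
      rw [hN]; linarith
    have : ((i : ℝ) + 1 / 2) * (lam / N) = lam * (((i : ℝ) + 1 / 2) / N) := by ring
    rw [this]
    have h5 : ((i : ℝ) + 1 / 2) / N < 1 := by rw [div_lt_one hN0]; exact h1
    nlinarith
  have hcomp : ∑ i ∈ range (n + 1), G s lam (x (j + i) - t) ≤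
      ∑ i ∈ range (n + 1), G s lam (((i : ℝ) + 1 / 2) * (lam / N)) := by
    have h1 : ∀ i ∈ range (n + 1), G s lam (x (j + i) - t) ≤
        G s lam (((i : ℝ) + 1 / 2) * (lam / N)) + G' s lam (x (j + i) - t) * (e (j + (i + 1)) - e (j + i)) := by
      intro i hi
      rw [Finset.mem_range] at hi
      have h2 := G_tangent hs (hrange i hi).1 (hrange i hi).2 (hu' i hi).1 (hu' i hi).2
      have h3 : e (j + (i + 1)) - e (j + i) = -(((i : ℝ) + 1 / 2) * (lam / N) - (x (j + i) - t)) := by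
        rw [← add_assoc, hesucc, hu]; ring
      rw [h3]
      linarith
    refine (Finset.sum_le_sum h1).trans ?_
    rw [Finset.sum_add_distrib]
    have h4 := abel (fun i => G' s lam (x (j + i) - t)) (fun i => e (j + i) - e j) n (by
      intro i hi
      apply G'_mono hs (hrange i (by omega)).1
      · have := hx (show j + i ≤ j + (i + 1) by omega)
        linarith
      · exact (hrange (i + 1) (by omega)).2) (fun i => by linarith [hmin (j + i)])
    have h5 : e (j + (n + 1)) - e j = 0 := by rw [heper, sub_self]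
    simp only [h5, mul_zero, add_zero, sub_self] at h4
    have h6 : ∑ i ∈ range (n + 1), G' s lam (x (j + i) - t) * (e (j + (i + 1)) - e (j + i)) =
        ∑ i ∈ range (n + 1), G' s lam (x (j + i) - t) * (e (j + (i + 1)) - e j - (e (j + i) - e j)) := by
      refine Finset.sum_congr rfl fun i _ => ?_
      congr 1; ring
    rw [h6]
    linarith
  refine hcomp.trans (le_of_eq ?_)
  unfold G
  rw [Finset.sum_add_distrib, two_mul]
  congr 1
  rw [← Finset.sum_range_reflect]
  refine Finset.sum_congr rfl fun i hi => ?_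
  rw [Finset.mem_range] at hi
  congr 1
  have h1 : ((n + 1 - 1 - i : ℕ) : ℝ) = (n : ℝ) - i := by
    rw [Nat.add_sub_cancel, Nat.cast_sub (by omega)]
  rw [h1]
  have h2 : lam = N * (lam / N) := by field_simp
  nth_rw 1 [h2]
  rw [hN]
  ring

/-- configurations on `[0, lam]` -/
theorem interval {s lam : ℝ} (hs : 0 < s) (hlam : 0 < lam) (n : ℕ) (a : Fin (n + 1) → ℝ)
    (ha0 : ∀ i, 0 ≤ a i) (ha1 : ∀ i, a i ≤ lam) :
    ∃ τ : ℝ, 0 ≤ τ ∧ τ ≤ lam ∧ (∀ i, τ ≠ a i) ∧ ∑ i, |τ - a i| ^ (-s) ≤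
      2 * ∑ i ∈ range (n + 1), (((i : ℝ) + 1 / 2) * (lam / (n + 1))) ^ (-s) := by
  let σ := Tuple.sort a
  have hmono : Monotone (a ∘ σ) := Tuple.monotone_sort a
  let b : Fin (n + 1) → ℝ := a ∘ σ
  have hb0 : ∀ i, 0 ≤ b i := fun i => ha0 _
  have hb1 : ∀ i, b i ≤ lam := fun i => ha1 _
  let x : ℕ → ℝ := fun k => b (Fin.ofNat (n + 1) k) + lam * ((k / (n + 1) : ℕ) : ℝ)
  have hx : Monotone x := by
    apply monotone_nat_of_le_succ
    intro k
    simp only [x]
    by_cases h : (k + 1) % (n + 1) = 0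
    · -- wrap
      have hdiv : (k + 1) / (n + 1) = k / (n + 1) + 1 := by
        rw [Nat.succ_div, if_pos (Nat.dvd_of_mod_eq_zero h)]
      rw [hdiv]
      push_cast
      have h1 := hb1 (Fin.ofNat (n + 1) k)
      have h2 := hb0 (Fin.ofNat (n + 1) (k + 1))
      linarith
    · have hdiv : (k + 1) / (n + 1) = k / (n + 1) := by
        rw [Nat.succ_div, if_neg (fun hd => h (Nat.mod_eq_zero_of_dvd hd)), add_zero]
      rw [hdiv]
      have h1 : Fin.ofNat (n + 1) k ≤ Fin.ofNat (n + 1) (k + 1) := by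
        rw [Fin.le_def]
        simp only [Fin.ofNat]
        have h3 := Nat.div_add_mod k (n + 1)
        have h4 := Nat.div_add_mod (k + 1) (n + 1)
        rw [hdiv] at h4
        omega
      have h2 := hmono h1
      have h2' : b (Fin.ofNat (n + 1) k) ≤ b (Fin.ofNat (n + 1) (k + 1)) := h2
      linarith
  have hper : ∀ k, x (k + (n + 1)) = x k + lam := by
    intro k
    simp only [x]
    have h1 : Fin.ofNat (n + 1) (k + (n + 1)) = Fin.ofNat (n + 1) k := by
      apply Fin.ext; simp [Fin.ofNat]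
    have h2 : (k + (n + 1)) / (n + 1) = k / (n + 1) + 1 := Nat.add_div_right k (by omega)
    rw [h1, h2]; push_cast; ring
  obtain ⟨j, hj, t, hrange, hsum⟩ := circle_seq hs hlam n x hx hper
  -- t ∈ (-lam, lam)
  have ht1 : t < lam := by
    have h1 := (hrange 0 (by omega)).1
    have h2 : x (j + 0) = b (Fin.ofNat (n + 1) j) := by
      simp only [x, add_zero]
      rw [Nat.div_eq_of_lt hj]; simp
    rw [h2] at h1
    linarith [hb1 (Fin.ofNat (n + 1) j)]
  have ht0 : -lam < t := by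
    have h1 := (hrange n (by omega)).2
    have h2 : 0 ≤ x (j + n) := by
      simp only [x]
      have := hb0 (Fin.ofNat (n + 1) (j + n))
      positivity
    linarith
  let τ : ℝ := if 0 ≤ t then t else t + lam
  have hτ0 : 0 ≤ τ := by simp only [τ]; split_ifs with h <;> linarith
  have hτ1 : τ < lam := by
    simp only [τ]; split_ifs with h
    · exact ht1
    · push Not at h; linarith
  -- for each index
  have hkey : ∀ i < n + 1, ∀ v, v = b (Fin.ofNat (n + 1) (j + i)) → τ ≠ v ∧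
      |τ - v| ^ (-s) ≤ G s lam (x (j + i) - t) := by
    intro i hi v hv
    obtain ⟨h1, h2⟩ := hrange i hi
    set u := x (j + i) - t with hu
    have hxv : x (j + i) = v + lam * (((j + i) / (n + 1) : ℕ) : ℝ) := by rw [hv]
    have hv0 : 0 ≤ v := by rw [hv]; exact hb0 _
    have hv1 : v ≤ lam := by rw [hv]; exact hb1 _
    -- τ - v = -u + lam z, z natural
    obtain ⟨z, hz⟩ : ∃ z : ℕ, τ - v = -u + lam * (z : ℝ) := by
      by_cases h : 0 ≤ t
      · refine ⟨(j + i) / (n + 1), ?_⟩
        simp only [τ, if_pos h, hu, hxv]; ring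
      · refine ⟨(j + i) / (n + 1) + 1, ?_⟩
        simp only [τ, if_neg h, hu, hxv]; push_cast; ring
    have hzz : z = 0 ∨ z = 1 := by
      by_contra hcon
      have : 2 ≤ z := by omega
      have h3 : (2 : ℝ) ≤ z := by exact_mod_cast this
      nlinarith
    have habs : |τ - v| = u ∨ |τ - v| = lam - u := by
      rcases hzz with rfl | rfl
      · left
        rw [hz]; simp [abs_of_pos h1]
      · right
        rw [hz, Nat.cast_one, mul_one, abs_of_pos (by linarith)]; ring
    constructor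
    · intro h
      rw [h, sub_self, abs_zero] at habs
      rcases habs with h3 | h3 <;> linarith
    · unfold G
      rcases habs with h3 | h3
      · rw [h3]
        have : 0 ≤ (lam - u) ^ (-s) := Real.rpow_nonneg (by linarith) _
        linarith
      · rw [h3]
        have : 0 ≤ u ^ (-s) := Real.rpow_nonneg h1.le _
        linarith
  -- reindexing
  let ρ : Fin (n + 1) ≃ Fin (n + 1) := (Equiv.addLeft (Fin.ofNat (n + 1) j)).trans σ
  have hρ : ∀ i : Fin (n + 1), a (ρ i) = b (Fin.ofNat (n + 1) (j + i)) := by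
    intro i
    simp only [ρ, Equiv.trans_apply, Equiv.coe_addLeft, b, Function.comp]
    congr 2
    apply Fin.ext
    simp [Fin.val_add, Fin.ofNat]
  refine ⟨τ, hτ0, hτ1.le, ?_, ?_⟩
  · intro k
    have h1 := hρ (ρ.symm k)
    rw [Equiv.apply_symm_apply] at h1
    rw [h1]
    exact (hkey _ (ρ.symm k).2 _ rfl).1
  · rw [← ρ.sum_comp]
    refine le_trans ?_ hsum
    rw [← Fin.sum_univ_eq_sum_range (fun i => G s lam (x (j + i) - t))]
    refine Finset.sum_le_sum fun i _ => ?_
    rw [hρ]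
    exact (hkey _ i.2 _ rfl).2

end Upper

section TMap

variable {K : Set ℝ}

/-- `T(x) = λ(K ∩ (-∞, x])`. -/
noncomputable def T (K : Set ℝ) (x : ℝ) : ℝ := volume.real (K ∩ Set.Iic x)

theorem vol_lt_top (hK : IsCompact K) : volume K < ∞ := hK.measure_lt_top

theorem T_diff (hK : IsCompact K) {x y : ℝ} (hxy : x ≤ y) :
    T K y - T K x = volume.real (K ∩ Set.Ioc x y) := by
  unfold T
  have h1 : K ∩ Set.Iic y = (K ∩ Set.Iic x) ∪ (K ∩ Set.Ioc x y) := by
    rw [← Set.inter_union_distrib_left, Set.Iic_union_Ioc_eq_Iic hxy]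
  have hfin : ∀ S : Set ℝ, volume (K ∩ S) ≠ ∞ := fun S =>
    ((measure_mono Set.inter_subset_left).trans_lt (vol_lt_top hK)).ne
  rw [h1, measureReal_union _ (hK.measurableSet.inter measurableSet_Ioc) (hfin _) (hfin _)]
  · ring
  · apply Set.disjoint_of_subset Set.inter_subset_right Set.inter_subset_right
    rw [Set.disjoint_left]
    intro z hz hz'
    exact absurd hz'.1 (not_lt.2 hz)

theorem T_lip (hK : IsCompact K) (x y : ℝ) : |T K x - T K y| ≤ |x - y| := by
  wlog hxy : x ≤ y generalizing x y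
  · rw [abs_sub_comm, abs_sub_comm x y]
    exact this y x (le_of_not_ge hxy)
  rw [abs_sub_comm, abs_sub_comm x y, abs_of_nonneg (sub_nonneg.2 hxy), T_diff hK hxy,
    abs_of_nonneg measureReal_nonneg]
  calc volume.real (K ∩ Set.Ioc x y) ≤ volume.real (Set.Ioc x y) :=
        measureReal_mono Set.inter_subset_right (by simp)
    _ = y - x := by rw [Real.volume_real_Ioc_of_le hxy]

theorem T_cont (hK : IsCompact K) : Continuous (T K) := by
  have : LipschitzWith 1 (T K) := by
    apply LipschitzWith.of_dist_le_mul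
    intro x y
    rw [Real.dist_eq, Real.dist_eq, NNReal.coe_one, one_mul]
    exact T_lip hK x y
  exact this.continuous

theorem T_nonneg (x : ℝ) : 0 ≤ T K x := measureReal_nonneg

theorem T_le (hK : IsCompact K) (x : ℝ) : T K x ≤ volume.real K :=
  measureReal_mono Set.inter_subset_left (vol_lt_top hK).ne

theorem T_surj (hK : IsCompact K) (hne : K.Nonempty) (h01 : K ⊆ Set.Icc 0 1) {t : ℝ} (h0 : 0 ≤ t)
    (h1 : t ≤ volume.real K) : ∃ y ∈ K, T K y = t := by
  have hT0 : T K 0 = 0 := by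
    unfold T
    have : K ∩ Set.Iic 0 ⊆ {0} := by
      rintro z ⟨hz, hz'⟩
      exact le_antisymm hz' (h01 hz).1
    refine le_antisymm ?_ measureReal_nonneg
    have h2 := measureReal_mono (μ := volume) this (by rw [Real.volume_singleton]; exact ENNReal.zero_ne_top)
    rwa [Measure.real, Measure.real, Real.volume_singleton, ENNReal.toReal_zero] at h2
  have hT1 : T K 1 = volume.real K := by
    unfold T
    rw [Set.inter_eq_self_of_subset_left]
    intro z hz
    exact (h01 hz).2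
  obtain ⟨x, hx, hxt⟩ := intermediate_value_Icc (zero_le_one (α := ℝ)) (T_cont hK).continuousOn
    (show t ∈ Set.Icc (T K 0) (T K 1) by rw [hT0, hT1]; exact ⟨h0, h1⟩)
  by_cases hemp : (K ∩ Set.Iic x).Nonempty
  · have hc : IsCompact (K ∩ Set.Iic x) := hK.inter_right isClosed_Iic
    have hmem := hc.sSup_mem hemp
    refine ⟨_, hmem.1, ?_⟩
    rw [← hxt]
    have h2 := T_diff hK (show sSup (K ∩ Set.Iic x) ≤ x from hmem.2)
    have h3 : K ∩ Set.Ioc (sSup (K ∩ Set.Iic x)) x = ∅ := by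
      rw [Set.eq_empty_iff_forall_notMem]
      rintro z ⟨hz, hz1, hz2⟩
      exact absurd (le_csSup hc.bddAbove ⟨hz, hz2⟩) (not_le.2 hz1)
    rw [h3] at h2
    simp at h2
    linarith
  · rw [Set.not_nonempty_iff_eq_empty] at hemp
    have ht : t = 0 := by rw [← hxt, T, hemp]; simp
    have hmem := hK.sInf_mem hne
    refine ⟨_, hmem, ?_⟩
    rw [ht]
    unfold T
    have : K ∩ Set.Iic (sInf K) ⊆ {sInf K} := by
      rintro z ⟨hz, hz'⟩
      exact le_antisymm hz' (csInf_le hK.bddBelow hz)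
    refine le_antisymm ?_ measureReal_nonneg
    have h2 := measureReal_mono (μ := volume) this (by rw [Real.volume_singleton]; exact ENNReal.zero_ne_top)
    rwa [Measure.real, Measure.real, Real.volume_singleton, ENNReal.toReal_zero] at h2

end TMap

/-- polarization constant -/
noncomputable def pol (K : Set ℝ) (s : ℝ) (N : ℕ) : ℝ≥0∞ :=
  ⨆ (x : Fin N → ℝ) (_ : ∀ i, x i ∈ K), ⨅ y ∈ K, ∑ j, (ENNReal.ofReal |y - x j|) ^ (-s)

/-- `2 ∑_{i<m} (i+1/2)^{-s}` -/
noncomputable def cs (s : ℝ) (m : ℕ) : ℝ≥0∞ :=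
  2 * ∑ i ∈ range m, (ENNReal.ofReal ((i : ℝ) + 1 / 2)) ^ (-s)

theorem rpow_anti {s : ℝ} (hs : 0 < s) {a b : ℝ≥0∞} (h : a ≤ b) : b ^ (-s) ≤ a ^ (-s) := by
  rw [ENNReal.rpow_neg, ENNReal.rpow_neg, ENNReal.inv_le_inv]
  exact ENNReal.rpow_le_rpow h hs.le

theorem upper {K : Set ℝ} (hK : IsCompact K) (hne : K.Nonempty) (h01 : K ⊆ Set.Icc 0 1)
    (hpos : 0 < volume.real K) {s : ℝ} (hs : 0 < s) (n : ℕ) :
    pol K s (n + 1) ≤ cs s (n + 1) * (ENNReal.ofReal (volume.real K)) ^ (-s) *
      (((n + 1 : ℕ) : ℝ≥0∞)) ^ s := by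
  unfold pol
  refine iSup₂_le fun x hx => ?_
  obtain ⟨τ, h0, h1, hne', hsum⟩ := interval hs hpos n (fun i => T K (x i))
    (fun i => T_nonneg _) (fun i => T_le hK _)
  obtain ⟨y, hy, hyt⟩ := T_surj hK hne h01 h0 h1
  refine (iInf₂_le y hy).trans ?_
  have h2 : ∑ j, (ENNReal.ofReal |y - x j|) ^ (-s) ≤ ∑ j, ENNReal.ofReal (|τ - T K (x j)| ^ (-s)) := by
    refine Finset.sum_le_sum fun j _ => ?_
    have h3 : 0 < |τ - T K (x j)| := abs_pos.2 (sub_ne_zero.2 (hne' j))
    rw [← ENNReal.ofReal_rpow_of_pos h3]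
    apply rpow_anti hs
    apply ENNReal.ofReal_le_ofReal
    rw [← hyt]
    exact T_lip hK _ _
  refine h2.trans ?_
  rw [← ENNReal.ofReal_sum_of_nonneg (fun j _ => Real.rpow_nonneg (abs_nonneg _) _)]
  refine (ENNReal.ofReal_le_ofReal hsum).trans (le_of_eq ?_)
  rw [ENNReal.ofReal_mul (by norm_num), ENNReal.ofReal_sum_of_nonneg
    (fun j _ => Real.rpow_nonneg (by positivity) _)]
  unfold cs
  rw [mul_assoc, mul_assoc, Finset.sum_mul]
  congr 1
  · simp
  refine Finset.sum_congr rfl fun i _ => ?_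
  have hN : (0 : ℝ) < (n : ℝ) + 1 := by positivity
  rw [← ENNReal.ofReal_rpow_of_pos (by positivity), ENNReal.ofReal_mul (by positivity),
    ENNReal.mul_rpow_of_ne_top ENNReal.ofReal_ne_top ENNReal.ofReal_ne_top]
  congr 1
  rw [ENNReal.ofReal_div_of_pos hN, div_eq_mul_inv, ENNReal.mul_rpow_of_ne_top ENNReal.ofReal_ne_top]
  · congr 1
    rw [ENNReal.rpow_neg, ← ENNReal.inv_rpow, inv_inv]
    congr 1
    rw [← Nat.cast_add_one, ENNReal.ofReal_natCast]
  · rw [ENNReal.inv_ne_top]
    simp; linarith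

section Lower

theorem pair_ge {s u v w : ℝ} (hs : 0 < s) (hw : 0 < w) (hu : 0 ≤ u) (hv : 0 ≤ v) (h : u + v = 2 * w) :
    2 * (ENNReal.ofReal w) ^ (-s) ≤ (ENNReal.ofReal u) ^ (-s) + (ENNReal.ofReal v) ^ (-s) := by
  rcases hu.eq_or_lt with rfl | hu
  · rw [ENNReal.ofReal_zero, ENNReal.zero_rpow_of_neg (by linarith)]
    simp
  rcases hv.eq_or_lt with rfl | hv
  · rw [ENNReal.ofReal_zero, ENNReal.zero_rpow_of_neg (by linarith)]
    simp
  rw [ENNReal.ofReal_rpow_of_pos hw, ENNReal.ofReal_rpow_of_pos hu, ENNReal.ofReal_rpow_of_pos hv,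
    ← ENNReal.ofReal_add (Real.rpow_nonneg hu.le _) (Real.rpow_nonneg hv.le _)]
  have h2 : (2 : ℝ≥0∞) = ENNReal.ofReal 2 := by simp
  rw [h2, ← ENNReal.ofReal_mul (by norm_num)]
  apply ENNReal.ofReal_le_ofReal
  have h3 := tangent hs hw hu
  have h4 := tangent hs hw hv
  have h5 : (u - w) = -(v - w) := by linarith
  rw [h5] at h3
  nlinarith

theorem neighbors {K : Set ℝ} (hK : IsCompact K) (hne : K.Nonempty) (p : ℝ) :
    ∃ l ∈ K, ∃ r ∈ K, ∀ y ∈ K, |y - l| ≤ |y - p| ∨ |y - r| ≤ |y - p| := by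
  have hl : ∃ l ∈ K, ∀ y ∈ K, y ≤ p → |y - l| ≤ |y - p| := by
    by_cases hemp : (K ∩ Set.Iic p).Nonempty
    · have hc : IsCompact (K ∩ Set.Iic p) := hK.inter_right isClosed_Iic
      have hmem := hc.sSup_mem hemp
      refine ⟨_, hmem.1, fun y hy hyp => ?_⟩
      have h1 := le_csSup hc.bddAbove (show y ∈ K ∩ Set.Iic p from ⟨hy, hyp⟩)
      have h2 : sSup (K ∩ Set.Iic p) ≤ p := hmem.2
      rw [abs_of_nonpos (by linarith), abs_of_nonpos (by linarith)]
      linarith
    · obtain ⟨y0, hy0⟩ := hne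
      refine ⟨y0, hy0, fun y hy hyp => ?_⟩
      exact absurd ⟨y, hy, hyp⟩ hemp
  have hr : ∃ r ∈ K, ∀ y ∈ K, p ≤ y → |y - r| ≤ |y - p| := by
    by_cases hemp : (K ∩ Set.Ici p).Nonempty
    · have hc : IsCompact (K ∩ Set.Ici p) := hK.inter_right isClosed_Ici
      have hmem := hc.sInf_mem hemp
      refine ⟨_, hmem.1, fun y hy hyp => ?_⟩
      have h1 := csInf_le hc.bddBelow (show y ∈ K ∩ Set.Ici p from ⟨hy, hyp⟩)
      have h2 : p ≤ sInf (K ∩ Set.Ici p) := hmem.2
      rw [abs_of_nonneg (by linarith), abs_of_nonneg (by linarith)]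
      linarith
    · obtain ⟨y0, hy0⟩ := hne
      refine ⟨y0, hy0, fun y hy hyp => ?_⟩
      exact absurd ⟨y, hy, hyp⟩ hemp
  obtain ⟨l, hl, hl'⟩ := hl
  obtain ⟨r, hr, hr'⟩ := hr
  refine ⟨l, hl, r, hr, fun y hy => ?_⟩
  rcases le_total y p with h | h
  · exact Or.inl (hl' y hy h)
  · exact Or.inr (hr' y hy h)

open Classical in
theorem offset (A B : Set ℝ) (hA : MeasurableSet A) (hB : MeasurableSet B) (N : ℕ) {h : ℝ} (hh : 0 < h)
    (hμ : volume A + volume B < N * ENNReal.ofReal h) (R : Finset ℤ) :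
    ∃ θ ∈ Set.Ico 0 h, (R.filter fun k : ℤ => θ + k * h ∈ A).card +
      (R.filter fun k : ℤ => θ + k * h ∈ B).card < N := by
  by_contra hcon
  push Not at hcon
  have key : ∀ A : Set ℝ, MeasurableSet A →
      ∫⁻ θ in Set.Ico 0 h, ∑ k ∈ R, A.indicator (fun _ => (1 : ℝ≥0∞)) (θ + k * h) ≤ volume A := by
    intro A hA
    rw [lintegral_finsetSum]
    · have h1 : ∀ k ∈ R, ∫⁻ θ in Set.Ico 0 h, A.indicator (fun _ => (1 : ℝ≥0∞)) (θ + k * h) =
          volume (A ∩ Set.Ico ((k : ℝ) * h) ((k + 1) * h)) := by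
        intro k _
        have h2 : (fun θ : ℝ => A.indicator (fun _ => (1 : ℝ≥0∞)) (θ + k * h)) =
            ((fun θ : ℝ => θ + k * h) ⁻¹' A).indicator (fun _ => (1 : ℝ≥0∞)) := by
          funext θ
          simp only [Set.indicator, Set.mem_preimage]
        rw [h2]
        have hmeas : MeasurableSet ((fun θ : ℝ => θ + k * h) ⁻¹' A) := hA.preimage (by fun_prop)
        rw [lintegral_indicator hmeas, lintegral_one, Measure.restrict_apply MeasurableSet.univ,
          Set.univ_inter, Measure.restrict_apply' measurableSet_Ico]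
        have h3 : (fun θ : ℝ => θ + k * h) ⁻¹' A ∩ Set.Ico 0 h =
            (fun θ : ℝ => θ + k * h) ⁻¹' (A ∩ Set.Ico ((k : ℝ) * h) ((k + 1) * h)) := by
          ext θ
          simp only [Set.mem_inter_iff, Set.mem_preimage, Set.mem_Ico]
          constructor
          · rintro ⟨a, b, c⟩
            exact ⟨a, by linarith, by linarith⟩
          · rintro ⟨a, b, c⟩
            exact ⟨a, by linarith, by linarith⟩
        rw [h3, measure_preimage_add_right]
      rw [Finset.sum_congr rfl h1, ← measure_biUnion_finset]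
      · apply measure_mono
        intro z hz
        simp only [Set.mem_iUnion] at hz
        obtain ⟨k, _, hz⟩ := hz
        exact hz.1
      · intro i _ j _ hij
        apply Set.disjoint_of_subset Set.inter_subset_right Set.inter_subset_right
        rw [Set.disjoint_left]
        rintro z ⟨h1, h2⟩ ⟨h3, h4⟩
        apply hij
        have e1 : (i : ℝ) < j + 1 := by
          by_contra hc; push Not at hc; nlinarith
        have e2 : (j : ℝ) < i + 1 := by
          by_contra hc; push Not at hc; nlinarith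
        have e1' : i < j + 1 := by exact_mod_cast e1
        have e2' : j < i + 1 := by exact_mod_cast e2
        omega
      · intro k _
        exact hA.inter measurableSet_Ico
    · intro k _
      exact (measurable_const.indicator hA).comp (by fun_prop)
  have h1 : ∫⁻ _ in Set.Ico 0 h, (N : ℝ≥0∞) ≤
      ∫⁻ θ in Set.Ico 0 h, (∑ k ∈ R, A.indicator (fun _ => (1 : ℝ≥0∞)) (θ + k * h) +
        ∑ k ∈ R, B.indicator (fun _ => (1 : ℝ≥0∞)) (θ + k * h)) := by
    apply setLIntegral_mono' measurableSet_Ico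
    intro θ hθ
    have h2 := hcon θ hθ
    have h3 : ∀ A : Set ℝ, ∑ k ∈ R, A.indicator (fun _ => (1 : ℝ≥0∞)) (θ + k * h) =
        ((R.filter fun k : ℤ => θ + k * h ∈ A).card : ℝ≥0∞) := by
      intro A
      rw [Finset.card_filter]
      push_cast
      refine Finset.sum_congr rfl fun k _ => ?_
      simp only [Set.indicator]
    rw [h3, h3]
    exact_mod_cast h2
  have hm : Measurable fun θ : ℝ => ∑ k ∈ R, A.indicator (fun _ => (1 : ℝ≥0∞)) (θ + k * h) := by
    apply Finset.measurable_sum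
    intro k _
    exact (measurable_const.indicator hA).comp (by fun_prop)
  rw [lintegral_add_left hm] at h1
  rw [setLIntegral_const, Real.volume_Ico, sub_zero] at h1
  have h4 := h1.trans (add_le_add (key A hA) (key B hB))
  exact absurd hμ (not_lt.2 h4)

open Classical in
theorem lower_config {K A : Set ℝ} (hK : IsCompact K) (hne : K.Nonempty) {s : ℝ} (hs : 0 < s)
    (N : ℕ) (h θ : ℝ) (R : Finset ℤ)
    (hcount : (R.filter fun k : ℤ => θ + k * h ∈ A).card +
      (R.filter fun k : ℤ => θ + k * h ∈ A \ K).card ≤ N) (W : ℝ≥0∞)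
    (hW : ∀ y ∈ K, W ≤ ∑ k ∈ R.filter (fun k : ℤ => θ + k * h ∈ A),
      (ENNReal.ofReal |y - (θ + k * h)|) ^ (-s)) : W ≤ pol K s N := by
  choose l hl r hr hlr using neighbors hK hne
  obtain ⟨y0, hy0⟩ := hne
  let piece : ℤ → Multiset ℝ := fun k =>
    if θ + k * h ∈ K then {θ + k * h} else {l (θ + k * h), r (θ + k * h)}
  let RA := R.filter fun k : ℤ => θ + k * h ∈ A
  let m : Multiset ℝ := ∑ k ∈ RA, piece k
  have hcard : Multiset.card m ≤ N := by
    refine le_trans (le_of_eq ?_) hcount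
    simp only [m]
    rw [Multiset.card_sum]
    have h1 : ∀ k ∈ RA, Multiset.card (piece k) = 1 + if θ + k * h ∈ A \ K then 1 else 0 := by
      intro k hk
      have hkA : θ + k * h ∈ A := (Finset.mem_filter.1 hk).2
      simp only [piece]
      by_cases hkK : θ + k * h ∈ K
      · rw [if_pos hkK, if_neg (fun hh => hh.2 hkK)]; simp
      · rw [if_neg hkK, if_pos ⟨hkA, hkK⟩]; simp
    rw [Finset.sum_congr rfl h1, Finset.sum_add_distrib, ← Finset.card_filter]
    simp only [RA, Finset.sum_const, smul_eq_mul, mul_one]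
    congr 2
    rw [Finset.filter_filter]
    apply Finset.filter_congr
    intro k _
    constructor
    · intro hh; exact hh.2
    · intro hh; exact ⟨hh.1, hh⟩
  have hmem : ∀ x ∈ m, x ∈ K := by
    intro x hx
    simp only [m] at hx
    rw [Multiset.mem_sum] at hx
    obtain ⟨k, _, hx⟩ := hx
    simp only [piece] at hx
    split_ifs at hx with hk
    · rw [Multiset.mem_singleton] at hx; rw [hx]; exact hk
    · rw [Multiset.insert_eq_cons, Multiset.mem_cons, Multiset.mem_singleton] at hx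
      rcases hx with rfl | rfl
      · exact hl _
      · exact hr _
  let m' : Multiset ℝ := m + Multiset.replicate (N - Multiset.card m) y0
  have hcard' : Multiset.card m' = N := by simp [m']; omega
  have hmem' : ∀ x ∈ m', x ∈ K := by
    intro x hx
    rcases Multiset.mem_add.1 hx with hx | hx
    · exact hmem x hx
    · rw [Multiset.eq_of_mem_replicate hx]; exact hy0
  have hlen : m'.toList.length = N := by rw [Multiset.length_toList, hcard']
  let x : Fin N → ℝ := fun i => m'.toList.get (i.cast hlen.symm)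
  have hx : ∀ i, x i ∈ K := by
    intro i
    apply hmem'
    rw [← Multiset.mem_toList]
    exact List.get_mem _ _
  have hxsum : ∀ f : ℝ → ℝ≥0∞, ∑ i, f (x i) = (m'.map f).sum := by
    intro f
    have h1 : (List.ofFn x) = m'.toList := by
      apply List.ext_get
      · simp [hlen]
      · intro n h1 h2
        simp [x]
    have h2 : ∑ i, f (x i) = ((List.ofFn x).map f).sum := by
      rw [List.map_ofFn, List.sum_ofFn]; rfl
    rw [h2, h1, ← Multiset.sum_coe, ← Multiset.map_coe, Multiset.coe_toList]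
  refine le_trans ?_ (le_iSup₂ (f := fun (x : Fin N → ℝ) (_ : ∀ i, x i ∈ K) =>
    ⨅ y ∈ K, ∑ j, (ENNReal.ofReal |y - x j|) ^ (-s)) x hx)
  refine le_iInf₂ fun y hy => ?_
  refine (hW y hy).trans ?_
  rw [hxsum fun z => (ENNReal.ofReal |y - z|) ^ (-s)]
  simp only [m']
  rw [Multiset.map_add, Multiset.sum_add]
  refine le_trans ?_ le_self_add
  simp only [m]
  have hsum : ∀ (S : Finset ℤ) (f : ℝ → ℝ≥0∞), ((∑ k ∈ S, piece k).map f).sum =
      ∑ k ∈ S, ((piece k).map f).sum := by
    intro S f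
    induction S using Finset.induction_on with
    | empty => simp
    | insert a S ha ih =>
      rw [Finset.sum_insert ha, Finset.sum_insert ha, Multiset.map_add, Multiset.sum_add, ih]
  rw [hsum]
  refine Finset.sum_le_sum fun k _ => ?_
  simp only [piece]
  split_ifs with hk
  · simp
  · rw [Multiset.insert_eq_cons, Multiset.map_cons, Multiset.sum_cons, Multiset.map_singleton,
      Multiset.sum_singleton]
    rcases hlr (θ + k * h) y hy with h1 | h1
    · exact (rpow_anti hs (ENNReal.ofReal_le_ofReal h1)).trans le_self_add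
    · exact (rpow_anti hs (ENNReal.ofReal_le_ofReal h1)).trans le_add_self

open Classical in
theorem grid_pot {A : Set ℝ} {s h : ℝ} (hs : 0 < s) (hh : 0 < h) (θ y : ℝ) (K0 : ℕ) (R : Finset ℤ)
    (hR : ∀ k : ℤ, |y - (θ + k * h)| ≤ K0 * h → k ∈ R ∧ θ + k * h ∈ A) :
    cs s K0 * (ENNReal.ofReal h) ^ (-s) ≤ ∑ k ∈ R.filter (fun k : ℤ => θ + k * h ∈ A),
      (ENNReal.ofReal |y - (θ + k * h)|) ^ (-s) := by
  set k0 : ℤ := ⌊(y - θ) / h⌋ with hk0
  set τ : ℝ := Int.fract ((y - θ) / h) with hτ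
  have hτ0 : 0 ≤ τ := Int.fract_nonneg _
  have hτ1 : τ < 1 := Int.fract_lt_one _
  have hy : y = θ + (k0 + τ) * h := by
    rw [hk0, hτ, Int.floor_add_fract]; field_simp; ring
  have hdl : ∀ i : ℕ, |y - (θ + ((k0 - i : ℤ) : ℝ) * h)| = (i + τ) * h := by
    intro i
    have : y - (θ + ((k0 - i : ℤ) : ℝ) * h) = (i + τ) * h := by
      nth_rw 1 [hy]; push_cast; ring
    rw [this, abs_of_nonneg (by positivity)]
  have hdr : ∀ i : ℕ, |y - (θ + ((k0 + 1 + i : ℤ) : ℝ) * h)| = (i + (1 - τ)) * h := by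
    intro i
    have : y - (θ + ((k0 + 1 + i : ℤ) : ℝ) * h) = -((i + (1 - τ)) * h) := by
      nth_rw 1 [hy]; push_cast; ring
    rw [this, abs_neg, abs_of_nonneg (mul_nonneg (by linarith [(Nat.cast_nonneg i : (0:ℝ) ≤ i)]) hh.le)]
  let SL : Finset ℤ := (range K0).image fun i : ℕ => k0 - (i : ℤ)
  let SR : Finset ℤ := (range K0).image fun i : ℕ => k0 + 1 + (i : ℤ)
  have hdisj : Disjoint SL SR := by
    rw [Finset.disjoint_left]
    intro k h1 h2
    simp only [SL, SR, Finset.mem_image, Finset.mem_range] at h1 h2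
    obtain ⟨i, _, hi⟩ := h1
    obtain ⟨j, _, hj⟩ := h2
    omega
  have hsub : SL ∪ SR ⊆ R.filter (fun k : ℤ => θ + k * h ∈ A) := by
    intro k hk
    rw [Finset.mem_filter]
    apply hR
    rcases Finset.mem_union.1 hk with hk | hk
    · simp only [SL, Finset.mem_image, Finset.mem_range] at hk
      obtain ⟨i, hi, rfl⟩ := hk
      rw [hdl]
      apply mul_le_mul_of_nonneg_right _ hh.le
      have : (i : ℝ) + 1 ≤ K0 := by exact_mod_cast hi
      linarith
    · simp only [SR, Finset.mem_image, Finset.mem_range] at hk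
      obtain ⟨i, hi, rfl⟩ := hk
      rw [hdr]
      apply mul_le_mul_of_nonneg_right _ hh.le
      have : (i : ℝ) + 1 ≤ K0 := by exact_mod_cast hi
      linarith
  refine le_trans ?_ (Finset.sum_le_sum_of_subset hsub)
  rw [Finset.sum_union hdisj]
  simp only [SL, SR]
  rw [Finset.sum_image (by intro i _ j _ hij; simpa using hij),
    Finset.sum_image (by intro i _ j _ hij; simpa using hij), ← Finset.sum_add_distrib]
  unfold cs
  rw [Finset.mul_sum, Finset.sum_mul]
  refine Finset.sum_le_sum fun i _ => ?_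
  rw [hdl, hdr]
  have h1 := pair_ge (s := s) (u := (i + τ) * h) (v := (i + (1 - τ)) * h)
    (w := ((i : ℝ) + 1 / 2) * h) hs (by positivity) (by positivity)
    (mul_nonneg (by linarith [(Nat.cast_nonneg i : (0:ℝ) ≤ i)]) hh.le) (by ring)
  refine le_trans (le_of_eq ?_) h1
  rw [ENNReal.ofReal_mul (by positivity), ENNReal.mul_rpow_of_ne_top ENNReal.ofReal_ne_top
    ENNReal.ofReal_ne_top, mul_assoc]

open Classical in
theorem lower {K : Set ℝ} (hK : IsCompact K) (hne : K.Nonempty) (h01 : K ⊆ Set.Icc 0 1)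
    {s : ℝ} (hs : 0 < s) (K0 : ℕ) {ε : ℝ} (hε : 0 < ε) :
    ∃ N0 : ℕ, ∀ N : ℕ, N0 ≤ N → 1 ≤ N → cs s K0 * (ENNReal.ofReal (volume.real K + 2 * ε)) ^ (-s) *
      (N : ℝ≥0∞) ^ s ≤ pol K s N := by
  have hfin := (vol_lt_top hK).ne
  set lam := volume.real K with hlam
  have hlam0 : 0 ≤ lam := measureReal_nonneg
  have hvol : volume K = ENNReal.ofReal lam := (ENNReal.ofReal_toReal hfin).symm
  have htend := tendsto_measure_cthickening_of_isCompact (μ := (volume : Measure ℝ)) hK
  have hev : ∀ᶠ δ in 𝓝 (0 : ℝ), volume (Metric.cthickening δ K) < ENNReal.ofReal (lam + ε) := by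
    apply htend.eventually_lt_const
    rw [hvol]
    exact (ENNReal.ofReal_lt_ofReal_iff (by linarith)).2 (by linarith)
  obtain ⟨δ, hδ0, hδ1, hδ⟩ : ∃ δ : ℝ, 0 < δ ∧ δ ≤ 1 ∧
      volume (Metric.cthickening δ K) < ENNReal.ofReal (lam + ε) := by
    obtain ⟨η, hη0, hη⟩ := Metric.eventually_nhds_iff.1 hev
    refine ⟨min (η / 2) 1, by positivity, min_le_right _ _, hη ?_⟩
    rw [Real.dist_eq, sub_zero, abs_of_pos (by positivity)]
    exact (min_le_left _ _).trans_lt (by linarith)
  set A := Metric.cthickening δ K with hA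
  have hAmeas : MeasurableSet A := Metric.isClosed_cthickening.measurableSet
  have hKA : K ⊆ A := Metric.self_subset_cthickening K
  have hA12 : A ⊆ Set.Icc (-1) 2 := by
    intro z hz
    rw [hA, hK.cthickening_eq_biUnion_closedBall hδ0.le] at hz
    simp only [Set.mem_iUnion] at hz
    obtain ⟨y, hy, hz⟩ := hz
    rw [Metric.mem_closedBall, Real.dist_eq, abs_le] at hz
    have := h01 hy
    exact ⟨by linarith [this.1, hz.1], by linarith [this.2, hz.2]⟩
  have hAB : volume A + volume (A \ K) < ENNReal.ofReal (lam + 2 * ε) := by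
    rw [measure_sdiff hKA hK.measurableSet.nullMeasurableSet hfin, hvol]
    have hAfin : volume A ≠ ∞ := ne_top_of_lt hδ
    obtain ⟨a, ha0, ha⟩ : ∃ a : ℝ, 0 ≤ a ∧ volume A = ENNReal.ofReal a :=
      ⟨(volume A).toReal, ENNReal.toReal_nonneg, (ENNReal.ofReal_toReal hAfin).symm⟩
    rw [ha] at hδ ⊢
    have hale : a < lam + ε := (ENNReal.ofReal_lt_ofReal_iff (by linarith)).1 hδ
    have hla : lam ≤ a := by
      have := measure_mono (μ := volume) hKA
      rw [hvol, ha] at this
      exact (ENNReal.ofReal_le_ofReal_iff ha0).1 this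
    rw [← ENNReal.ofReal_sub _ hlam0, ← ENNReal.ofReal_add ha0 (by linarith)]
    exact (ENNReal.ofReal_lt_ofReal_iff (by linarith)).2 (by linarith)
  obtain ⟨N0, hN0⟩ := exists_nat_gt ((K0 : ℝ) * (lam + 2 * ε) / δ)
  refine ⟨N0, fun N hN hN1 => ?_⟩
  have hNpos : (0 : ℝ) < N := by exact_mod_cast hN1
  set h : ℝ := (lam + 2 * ε) / N with hh
  have hh0 : 0 < h := by positivity
  have hNh : (N : ℝ≥0∞) * ENNReal.ofReal h = ENNReal.ofReal (lam + 2 * ε) := by
    rw [← ENNReal.ofReal_natCast, ← ENNReal.ofReal_mul (by positivity)]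
    congr 1
    rw [hh]; field_simp
  have hK0h : (K0 : ℝ) * h ≤ δ := by
    rw [hh, ← mul_div_assoc, div_le_iff₀ hNpos]
    rw [div_lt_iff₀ hδ0] at hN0
    have : (N0 : ℝ) ≤ N := by exact_mod_cast hN
    nlinarith
  let R0 : ℕ := ⌈2 / h⌉₊ + 1
  let R : Finset ℤ := Finset.Icc (-(R0 : ℤ)) R0
  rw [← hNh] at hAB
  obtain ⟨θ, hθ, hcount⟩ := offset A (A \ K) hAmeas (hAmeas.diff hK.measurableSet) N hh0 hAB R
  have hRmem : ∀ k : ℤ, θ + k * h ∈ A → k ∈ R := by
    intro k hk
    have h1 := hA12 hk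
    have h2 : (2 : ℝ) / h ≤ ⌈2 / h⌉₊ := Nat.le_ceil _
    rw [div_le_iff₀ hh0] at h2
    simp only [R, Finset.mem_Icc]
    have h3 : ((R0 : ℕ) : ℝ) = (⌈2 / h⌉₊ : ℝ) + 1 := by simp [R0]
    have h4 : (-(R0 : ℝ)) ≤ k := by
      rw [h3]
      by_contra hcon
      push Not at hcon
      have : (k : ℝ) * h < -((⌈2 / h⌉₊ : ℝ) + 1) * h := mul_lt_mul_of_pos_right hcon hh0
      linarith [h1.1, hθ.2]
    have h5 : (k : ℝ) ≤ R0 := by
      rw [h3]
      by_contra hcon
      push Not at hcon
      have : ((⌈2 / h⌉₊ : ℝ) + 1) * h < (k : ℝ) * h := mul_lt_mul_of_pos_right hcon hh0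
      linarith [h1.2, hθ.1]
    exact ⟨by exact_mod_cast h4, by exact_mod_cast h5⟩
  refine lower_config (A := A) hK hne hs N h θ R (by refine le_of_lt ?_; convert hcount; rfl) _ fun y hy => ?_
  have h1 := grid_pot (A := A) hs hh0 θ y K0 R (by
    intro k hk
    have hmem : θ + k * h ∈ A := by
      apply Metric.mem_cthickening_of_dist_le _ y δ K hy
      rw [Real.dist_eq, abs_sub_comm]
      exact hk.trans hK0h
    exact ⟨hRmem k hmem, hmem⟩)
  refine le_trans (le_of_eq ?_) h1
  rw [mul_assoc]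
  congr 1
  rw [hh, ENNReal.ofReal_div_of_pos hNpos, div_eq_mul_inv, ENNReal.mul_rpow_of_ne_top ENNReal.ofReal_ne_top]
  · congr 1
    rw [ENNReal.rpow_neg, ← ENNReal.inv_rpow, inv_inv, ENNReal.ofReal_natCast]
  · rw [ENNReal.inv_ne_top]
    simp; omega

end Lower

section Limit

/-- the limit constant -/
noncomputable def cinf (s : ℝ) : ℝ≥0∞ := 2 * ∑' i : ℕ, (ENNReal.ofReal ((i : ℝ) + 1 / 2)) ^ (-s)

theorem cs_le (s : ℝ) (m : ℕ) : cs s m ≤ cinf s := by
  unfold cs cinf
  gcongr
  exact ENNReal.sum_le_tsum _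

theorem cs_tendsto (s : ℝ) : Tendsto (cs s) atTop (𝓝 (cinf s)) := by
  unfold cs cinf
  exact ENNReal.Tendsto.const_mul (ENNReal.tendsto_nat_tsum _) (Or.inr (by simp))

theorem summable_half {s : ℝ} (hs : 1 < s) : Summable fun i : ℕ => ((i : ℝ) + 1 / 2) ^ (-s) := by
  have h1 : Summable fun i : ℕ => 2 ^ s * (((i + 1 : ℕ) : ℝ)) ^ (-s) := by
    apply Summable.mul_left
    have := (summable_nat_add_iff 1).2 (Real.summable_nat_rpow.2 (by linarith : -s < -1))
    exact this
  refine Summable.of_nonneg_of_le (fun i => by positivity) (fun i => ?_) h1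
  have h2 : (((i + 1 : ℕ) : ℝ)) / 2 ≤ (i : ℝ) + 1 / 2 := by
    push_cast
    have : (0 : ℝ) ≤ i := Nat.cast_nonneg i
    linarith
  calc ((i : ℝ) + 1 / 2) ^ (-s) ≤ ((((i + 1 : ℕ) : ℝ)) / 2) ^ (-s) :=
        Real.rpow_le_rpow_of_nonpos (by positivity) h2 (by linarith)
    _ = 2 ^ s * (((i + 1 : ℕ) : ℝ)) ^ (-s) := by
        rw [Real.div_rpow (by positivity) (by norm_num), Real.rpow_neg (by norm_num : (0:ℝ) ≤ 2)]
        field_simp

theorem cinf_eq {s : ℝ} (hs : 1 < s) :
    cinf s = ENNReal.ofReal (2 * ∑' i : ℕ, ((i : ℝ) + 1 / 2) ^ (-s)) := by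
  unfold cinf
  rw [ENNReal.ofReal_mul (by norm_num), ENNReal.ofReal_tsum_of_nonneg
    (fun i => by positivity) (summable_half hs)]
  congr 1
  · simp
  · apply tsum_congr
    intro i
    rw [ENNReal.ofReal_rpow_of_pos (by positivity)]

theorem main {K : Set ℝ} (hK : IsCompact K) (hne : K.Nonempty) (h01 : K ⊆ Set.Icc 0 1)
    (hpos : 0 < volume.real K) {s : ℝ} (hs : 1 < s) :
    Tendsto (fun N : ℕ => pol K s N / (N : ℝ≥0∞) ^ s) atTop
      (𝓝 (cinf s * (ENNReal.ofReal (volume.real K)) ^ (-s))) := by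
  have hs0 : 0 < s := by linarith
  have hdiv : ∀ N : ℕ, 1 ≤ N → ∀ a b : ℝ≥0∞, (a * (N : ℝ≥0∞) ^ s) / (N : ℝ≥0∞) ^ s = a := by
    intro N hN a _
    have h1 : (N : ℝ≥0∞) ^ s ≠ 0 := by
      intro h
      rw [ENNReal.rpow_eq_zero_iff] at h
      rcases h with h | h
      · have : N = 0 := by exact_mod_cast h.1
        omega
      · exact absurd h.1 (by simp)
    have h2 : (N : ℝ≥0∞) ^ s ≠ ∞ := ENNReal.rpow_ne_top_of_nonneg hs0.le (by simp)
    exact ENNReal.mul_div_cancel_right h1 h2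
  rw [tendsto_order]
  constructor
  · intro a ha
    -- choose K0
    have ht1 : Tendsto (fun m => cs s m * (ENNReal.ofReal (volume.real K)) ^ (-s)) atTop
        (𝓝 (cinf s * (ENNReal.ofReal (volume.real K)) ^ (-s))) := by
      apply ENNReal.Tendsto.mul_const (cs_tendsto s)
      right
      apply ENNReal.rpow_ne_top_of_ne_zero
      · simp; linarith
      · simp
    obtain ⟨K0, hK0⟩ := (ht1.eventually_const_lt ha).exists
    have ht2 : Tendsto (fun ε : ℝ => cs s K0 * (ENNReal.ofReal (volume.real K + 2 * ε)) ^ (-s)) (𝓝 0)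
        (𝓝 (cs s K0 * (ENNReal.ofReal (volume.real K + 2 * 0)) ^ (-s))) := by
      apply ENNReal.Tendsto.const_mul
      · apply (ENNReal.continuous_rpow_const.tendsto _).comp
        exact (ENNReal.continuous_ofReal.tendsto _).comp
          ((continuous_const.add (continuous_const.mul continuous_id)).tendsto 0)
      · right
        have : cs s K0 ≤ cinf s := cs_le s K0
        rw [cinf_eq hs] at this
        exact ne_top_of_le_ne_top ENNReal.ofReal_ne_top this
    rw [mul_zero, add_zero] at ht2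
    have hev := ht2.eventually_const_lt hK0
    obtain ⟨η, hη0, hη⟩ := Metric.eventually_nhds_iff.1 hev
    have hη2 := hη (y := η / 2) (by rw [Real.dist_eq, sub_zero, abs_of_pos (by positivity)]; linarith)
    obtain ⟨N0, hN0⟩ := lower hK hne h01 hs0 K0 (ε := η / 2) (by positivity)
    filter_upwards [eventually_ge_atTop (max N0 1)] with N hN
    refine hη2.trans_le ?_
    have h1 := ENNReal.div_le_div_right (hN0 N (by omega) (by omega)) ((N : ℝ≥0∞) ^ s)
    rwa [hdiv N (by omega) _ 0] at h1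
  · intro a ha
    filter_upwards [eventually_ge_atTop 1] with N hN
    refine lt_of_le_of_lt ?_ ha
    obtain ⟨n, rfl⟩ : ∃ n, N = n + 1 := ⟨N - 1, by omega⟩
    have h1 := ENNReal.div_le_div_right (upper hK hne h01 hpos hs0 n) ((((n + 1 : ℕ) : ℝ≥0∞)) ^ s)
    rw [hdiv (n + 1) (by omega) _ 0] at h1
    refine h1.trans ?_
    gcongr
    exact cs_le s (n + 1)

end Limit

end Pool.Agent.V1175.FatPol
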